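import Mathlib

/-!
Half of the reduced residue classes have Jacobi symbol `-1`; primes in `(n, 4 n]`.
-/

set_option autoImplicit false

open Finset Filter

namespace Pool.Agent.Y515.RP

/-- a class with symbol `-1` for `D = ± f, ± 2 f`, `D ≠ 1`. -/
theorem exists_neg_class (f : ℕ) (hf : Odd f) (hsq : Squarefree f) (D : ℤ)
    (hD : D = f ∨ D = -f ∨ D = 2 * f ∨ D = -(2 * f)) (hD1 : D ≠ 1) :
    ∃ u : ℕ, u.Coprime (8 * f) ∧ jacobiSym D u = -1 := by
  have hf0 : f ≠ 0 := hsq.ne_zero
  by_cases h1 : f = 1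
  · subst h1
    rcases hD with h | h | h | h
    · exact absurd (by rw [h]; norm_num) hD1
    · refine ⟨3, by norm_num, ?_⟩
      rw [h]; norm_num
    · refine ⟨3, by norm_num, ?_⟩
      rw [h]; norm_num
    · refine ⟨5, by norm_num, ?_⟩
      rw [h]; norm_num
  · obtain ⟨l, hl, hlf⟩ := Nat.exists_prime_and_dvd h1
    obtain ⟨g, hg⟩ := hlf
    have hfl : Fact l.Prime := ⟨hl⟩
    have hl2 : l ≠ 2 := by
      rintro rfl
      rw [hg] at hf
      exact (Nat.not_odd_iff_even.2 (even_two_mul g)) hf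
    have hlodd : Odd l := hl.odd_of_ne_two hl2
    have hgodd : Odd g := by
      rw [hg] at hf
      exact (Nat.odd_mul.1 hf).2
    have hlg : Nat.Coprime l g := by
      rw [hg] at hsq
      exact Nat.coprime_of_squarefree_mul hsq
    obtain ⟨a, ha⟩ : ∃ a : ZMod l, quadraticChar (ZMod l) a = -1 := by
      apply quadraticChar_exists_neg_one
      rw [ZMod.ringChar_zmod_n]; exact hl2
    have hcop : Nat.Coprime l (8 * g) := by
      apply Nat.Coprime.mul_right _ hlg
      rw [show (8 : ℕ) = 2 ^ 3 by norm_num]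
      exact Nat.Coprime.pow_right 3 (hlodd.coprime_two_right)
    obtain ⟨u, hu1, hu2⟩ := Nat.chineseRemainder hcop a.val 1
    have hul : ((u : ℤ) : ZMod l) = a := by
      have := (ZMod.natCast_eq_natCast_iff u a.val l).2 hu1
      rw [Int.cast_natCast, this, ZMod.natCast_zmod_val]
    have hu8 : u % 8 = 1 := by
      have h8 : u ≡ 1 [MOD 8] := hu2.of_mul_right g
      exact h8
    have hug : u ≡ 1 [MOD g] := by
      have : u ≡ 1 [MOD g * 8] := by rw [mul_comm]; exact hu2
      exact this.of_mul_right 8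
    have huodd : Odd u := by rw [Nat.odd_iff]; omega
    have hJl : jacobiSym (u : ℤ) l = -1 := by
      rw [← jacobiSym.legendreSym.to_jacobiSym, legendreSym, hul]
      exact ha
    have hJg : jacobiSym (u : ℤ) g = 1 := by
      rw [jacobiSym.mod_left' (a₂ := 1), jacobiSym.one_left]
      have : (u : ℤ) ≡ 1 [ZMOD g] := by exact_mod_cast (Int.natCast_modEq_iff.2 hug)
      exact this
    have hJf : jacobiSym (f : ℤ) u = -1 := by
      rw [jacobiSym.quadratic_reciprocity_one_mod_four' hf (by omega), hg,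
        jacobiSym.mul_right' _ hl.ne_zero (by rintro rfl; simp at hgodd), hJl, hJg]
      norm_num
    have hm1 : jacobiSym (-1) u = 1 := by
      rw [jacobiSym.at_neg_one huodd]
      have : ((u : ℕ) : ZMod 4) = ((1 : ℕ) : ZMod 4) :=
        (ZMod.natCast_eq_natCast_iff u 1 4).2 (by
          have : u % 4 = 1 := by omega
          exact this)
      rw [this]; decide
    have h2 : jacobiSym 2 u = 1 := by
      rw [jacobiSym.at_two huodd]
      have : ((u : ℕ) : ZMod 8) = ((1 : ℕ) : ZMod 8) :=
        (ZMod.natCast_eq_natCast_iff u 1 8).2 hu8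
      rw [this]; decide
    refine ⟨u, ?_, ?_⟩
    · apply Nat.Coprime.mul_right
      · rw [show (8 : ℕ) = 2 ^ 3 by norm_num]
        exact Nat.Coprime.pow_right 3 (huodd.coprime_two_right)
      · rw [hg]
        apply Nat.Coprime.mul_right
        · have hne : jacobiSym (u : ℤ) l ≠ 0 := by rw [hJl]; norm_num
          have hl0 : NeZero l := ⟨hl.ne_zero⟩
          by_contra hc
          apply hne
          rw [jacobiSym.eq_zero_iff_not_coprime, Int.gcd_natCast_natCast]
          exact hc
        · rw [Nat.coprime_iff_gcd_eq_one, hug.gcd_eq]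
          simp
    · rcases hD with h | h | h | h
      · rw [h, hJf]
      · rw [h, neg_eq_neg_one_mul, jacobiSym.mul_left, hm1, hJf, one_mul]
      · rw [h, jacobiSym.mul_left, h2, hJf, one_mul]
      · rw [h, neg_eq_neg_one_mul, jacobiSym.mul_left, jacobiSym.mul_left, hm1, h2, hJf]
        norm_num

theorem dvd_of_D (f : ℕ) (D : ℤ) (hD : D = f ∨ D = -f ∨ D = 2 * f ∨ D = -(2 * f)) :
    4 * D.natAbs ∣ 8 * f := by
  have h : D.natAbs = f ∨ D.natAbs = 2 * f := by omega
  rcases h with h | h
  · rw [h]; exact ⟨2, by ring⟩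
  · rw [h]; exact ⟨1, by ring⟩

theorem jac_congr {Q b c : ℕ} {D : ℤ} (hQ : 4 * D.natAbs ∣ Q) (hb : Odd b) (hc : Odd c)
    (h : b ≡ c [MOD Q]) : jacobiSym D b = jacobiSym D c := by
  rw [jacobiSym.mod_right D hb, jacobiSym.mod_right D hc]
  have : b % (4 * D.natAbs) = c % (4 * D.natAbs) := h.of_dvd hQ
  rw [this]

/-- the reduced classes with symbol `-1` -/
noncomputable def NN (f : ℕ) (D : ℤ) (e : ℤ) : Finset ℕ :=
  ((range (8 * f)).filter (fun u => u.Coprime (8 * f))).filter (fun u => jacobiSym D u = e)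

theorem odd_of_coprime {f u : ℕ} (h : u.Coprime (8 * f)) : Odd u := by
  have h2 : u.Coprime 2 := h.coprime_dvd_right ⟨4 * f, by ring⟩
  exact Nat.coprime_two_right.1 h2

theorem NN_le (f : ℕ) (hf : Odd f) (hsq : Squarefree f) (D : ℤ)
    (hD : D = f ∨ D = -f ∨ D = 2 * f ∨ D = -(2 * f)) (hD1 : D ≠ 1) (e : ℤ) :
    (NN f D e).card ≤ (NN f D (-e)).card := by
  obtain ⟨u0, hu0, hJ0⟩ := exists_neg_class f hf hsq D hD hD1
  have hf0 : 0 < 8 * f := by
    have := hsq.ne_zero
    omega
  have hodd0 := odd_of_coprime hu0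
  apply card_le_card_of_injOn (fun u => (u0 * u) % (8 * f))
  · intro u hu
    rw [mem_coe, NN, mem_filter, mem_filter, mem_range] at hu
    obtain ⟨⟨_, hc⟩, hJ⟩ := hu
    have hodd := odd_of_coprime hc
    have hmod : (u0 * u) % (8 * f) ≡ u0 * u [MOD 8 * f] := Nat.mod_modEq _ _
    have hcop : ((u0 * u) % (8 * f)).Coprime (8 * f) := by
      rw [Nat.coprime_iff_gcd_eq_one, hmod.gcd_eq]
      exact Nat.Coprime.mul_left hu0 hc
    rw [mem_coe, NN, mem_filter, mem_filter, mem_range]
    refine ⟨⟨Nat.mod_lt _ hf0, hcop⟩, ?_⟩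
    rw [jac_congr (dvd_of_D f D hD) (odd_of_coprime hcop) (hodd0.mul hodd) hmod,
      jacobiSym.mul_right' _ hodd0.pos.ne' hodd.pos.ne', hJ0, hJ]
    ring
  · intro u hu v hv huv
    rw [mem_coe, NN, mem_filter, mem_filter, mem_range] at hu hv
    have h1 : u0 * u ≡ u0 * v [MOD 8 * f] := huv
    have h2 := Nat.ModEq.cancel_left_of_coprime (by
      rw [Nat.gcd_comm]; exact hu0) h1
    exact h2.eq_of_lt_of_lt hu.1.1 hv.1.1

theorem card_NN (f : ℕ) (hf : Odd f) (hsq : Squarefree f) (D : ℤ)
    (hD : D = f ∨ D = -f ∨ D = 2 * f ∨ D = -(2 * f)) (hD1 : D ≠ 1) :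
    2 * (NN f D (-1)).card = (8 * f).totient := by
  have h1 := NN_le f hf hsq D hD hD1 1
  have h2 := NN_le f hf hsq D hD hD1 (-1)
  rw [neg_neg] at h2
  have h3 : (NN f D 1).card + (NN f D (-1)).card = (8 * f).totient := by
    have h4 : ((range (8 * f)).filter (fun u => u.Coprime (8 * f))).card = (8 * f).totient := by
      rw [Nat.totient_eq_card_coprime]
      congr 1
      ext a
      simp only [mem_filter, mem_range, Nat.coprime_comm]
    rw [← h4, ← card_filter_add_card_filter_not (s := (range (8 * f)).filter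
      (fun u => u.Coprime (8 * f))) (fun u => jacobiSym D u = 1)]
    congr 1
    unfold NN
    congr 1
    apply filter_congr
    intro u hu
    rw [mem_filter, mem_range] at hu
    have hodd := odd_of_coprime hu.2
    have hg : D.gcd u = 1 := by
      have h5 : Nat.Coprime u D.natAbs :=
        hu.2.coprime_dvd_right ((Dvd.intro_left 4 rfl).trans (dvd_of_D f D hD))
      rw [Int.gcd_def, Int.natAbs_natCast, Nat.gcd_comm]
      exact h5
    rcases jacobiSym.eq_one_or_neg_one hg with h | h
    · rw [h]; norm_num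
    · rw [h]; norm_num
  omega

/-- primes in `(n, 4 n]` -/
theorem primes_block : ∃ n0 : ℕ, ∀ n : ℕ, n0 ≤ n →
    (n : ℝ) / Real.log (4 * n) ≤ (((Icc 1 (4 * n)).filter (fun p => p.Prime)).card : ℝ) -
      (((Icc 1 n).filter (fun p => p.Prime)).card : ℝ) := by
  have hev : ∀ᶠ x : ℝ in atTop, Real.log (4 * x + 1) + 2 * √(4 * x) * Real.log (4 * x) ≤
      (1 / 4) * x := by
    have h1 := (isLittleO_log_rpow_atTop (show (0 : ℝ) < 1 / 4 by norm_num)).bound
      (c := 1) one_pos
    have h2 : Tendsto (fun x : ℝ => 4 * x + 1) atTop atTop :=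
      tendsto_atTop_add_const_right _ _ (tendsto_id.const_mul_atTop (by norm_num))
    have h3 := h2.eventually h1
    filter_upwards [h3, eventually_ge_atTop (10 ^ 12 : ℝ)] with x hx hx1
    rw [one_mul, Real.norm_eq_abs, Real.norm_eq_abs, abs_of_nonneg (Real.log_nonneg (by linarith)),
      abs_of_nonneg (by positivity)] at hx
    have hx0 : 0 < x := by linarith
    have h4 : Real.log (4 * x) ≤ (4 * x + 1) ^ (1 / 4 : ℝ) :=
      (Real.log_le_log (by linarith) (by linarith)).trans hx
    set y := (4 * x + 1) ^ (1 / 4 : ℝ) with hy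
    have hy0 : 0 < y := by positivity
    have hy4 : y ^ 4 = 4 * x + 1 := by
      rw [hy, ← Real.rpow_natCast, ← Real.rpow_mul (by linarith)]
      norm_num
    have hs : √(4 * x) ≤ y ^ 2 := by
      rw [Real.sqrt_le_left (by positivity)]
      nlinarith
    have hy1000 : 1000 ≤ y := by
      by_contra hc
      push Not at hc
      have : y ^ 4 ≤ 1000 ^ 4 := pow_le_pow_left₀ hy0.le hc.le 4
      nlinarith
    have h5 : 2 * √(4 * x) * Real.log (4 * x) ≤ 2 * y ^ 2 * y := by
      apply mul_le_mul _ h4 (Real.log_nonneg (by linarith)) (by positivity)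
      linarith
    have h6 : x = (y ^ 4 - 1) / 4 := by rw [hy4]; ring
    rw [h6]
    have h6' : 4 * ((y ^ 4 - 1) / 4) = y ^ 4 - 1 := by ring
    rw [← h6]
    calc Real.log (4 * x + 1) + 2 * √(4 * x) * Real.log (4 * x) ≤ y + 2 * y ^ 2 * y :=
          add_le_add hx h5
      _ ≤ 1 / 4 * x := by
          rw [h6]
          have : y ^ 3 * 1000 ≤ y ^ 4 := by
            rw [pow_succ y 3]
            exact mul_le_mul_of_nonneg_left hy1000 (by positivity)
          have h8 : 1 ≤ y ^ 3 := one_le_pow₀ (by linarith)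
          have h9 : y ≤ y ^ 3 := by
            calc y = y ^ 1 := (pow_one y).symm
              _ ≤ y ^ 3 := pow_le_pow_right₀ (by linarith) (by norm_num)
          nlinarith
  obtain ⟨x0, hx0⟩ := eventually_atTop.1 hev
  refine ⟨max ⌈x0⌉₊ 1, ?_⟩
  intro n hn
  have hn1 : 1 ≤ n := (le_max_right _ _).trans hn
  have hnR : x0 ≤ (n : ℝ) := Nat.ceil_le.1 ((le_max_left _ _).trans hn)
  have hn1R : (1 : ℝ) ≤ n := by exact_mod_cast hn1
  have h1 := Chebyshev.theta_ge (4 * n)
  have h2 := Chebyshev.theta_le_log4_mul_x (x := (n : ℝ)) (by positivity)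
  have h3 := hx0 n hnR
  have hlog4 : Real.log 4 = 2 * Real.log 2 := by
    rw [show (4 : ℝ) = 2 ^ 2 by norm_num, Real.log_pow]; norm_num
  have hlog2 := Real.log_two_gt_d9
  push_cast at h1
  have hdiff : (n : ℝ) ≤ Chebyshev.theta ((4 * n : ℕ) : ℝ) - Chebyshev.theta n := by
    push_cast
    rw [hlog4] at h2
    nlinarith
  have hlogpos : 0 < Real.log (4 * n) := Real.log_pos (by linarith)
  rw [div_le_iff₀ hlogpos]
  refine hdiff.trans ?_
  have hth : Chebyshev.theta ((4 * n : ℕ) : ℝ) - Chebyshev.theta (n : ℝ) =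
      ∑ p ∈ (Ioc n (4 * n)).filter (fun p => p.Prime), Real.log p := by
    unfold Chebyshev.theta
    rw [Nat.floor_natCast, Nat.floor_natCast]
    rw [sub_eq_iff_eq_add, add_comm]
    rw [sum_filter, sum_filter, sum_filter]
    rw [← sum_union]
    · congr 1
      ext i
      simp only [mem_union, mem_Ioc]
      omega
    · rw [disjoint_left]
      intro a ha hb
      rw [mem_Ioc] at ha hb
      omega
  have hcard : (((Icc 1 (4 * n)).filter (fun p => p.Prime)).card : ℝ) -
      (((Icc 1 n).filter (fun p => p.Prime)).card : ℝ) =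
      (((Ioc n (4 * n)).filter (fun p => p.Prime)).card : ℝ) := by
    rw [sub_eq_iff_eq_add, add_comm]
    have : ((Icc 1 n).filter (fun p => p.Prime)).card +
        ((Ioc n (4 * n)).filter (fun p => p.Prime)).card =
        ((Icc 1 (4 * n)).filter (fun p => p.Prime)).card := by
      rw [← card_union_of_disjoint]
      · rw [← filter_union]
        congr 2
        ext i
        simp only [mem_union, mem_Ioc, mem_Icc]
        omega
      · rw [disjoint_left]
        intro a ha hb
        rw [mem_filter, mem_Icc] at ha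
        rw [mem_filter, mem_Ioc] at hb
        omega
    exact_mod_cast this.symm
  rw [hth, hcard]
  calc ∑ p ∈ (Ioc n (4 * n)).filter (fun p => p.Prime), Real.log p ≤
      ∑ p ∈ (Ioc n (4 * n)).filter (fun p => p.Prime), Real.log (4 * n) := by
        apply sum_le_sum
        intro p hp
        rw [mem_filter, mem_Ioc] at hp
        apply Real.log_le_log
        · exact_mod_cast hp.2.pos
        · exact_mod_cast hp.1.2
    _ = _ := by rw [sum_const, nsmul_eq_mul]

end Pool.Agent.Y515.RP
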