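import Pool.Agent.Y515.RP.EE
import Pool.Agent.Y515.RP.Jac

/-!
Project RP (helper667): few bad quadratic characters.
-/

set_option autoImplicit false

open Finset Filter

namespace Pool.Agent.Y515.RP

open Pool.Agent.Y667.RP

/-- primes of a block with symbol `-1` -/
theorem block_lower (f : ℕ) (hf : Odd f) (hsq : Squarefree f) (D : ℤ)
    (hD : D = f ∨ D = -f ∨ D = 2 * f ∨ D = -(2 * f)) (hD1 : D ≠ 1) (n : ℕ)
    (hn : (n : ℝ) / Real.log (4 * n) ≤ H343E.pi1 (4 * n) - H343E.pi1 n) :
    (1 / 2) * ((n : ℝ) / Real.log (4 * n)) - ee (4 * n) (8 * f) - ee n (8 * f) ≤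
      (((Ioc n (4 * n)).filter (fun p : ℕ => p.Prime ∧ jacobiSym D p = -1)).card : ℝ) := by
  classical
  have hf0 : 0 < 8 * f := by
    have := hsq.ne_zero
    omega
  have hφ : 0 < (8 * f).totient := Nat.totient_pos.2 hf0
  have hφR : (0 : ℝ) < (8 * f).totient := by exact_mod_cast hφ
  -- the classes
  have hap : ∀ u : ℕ, H343E.piAP (4 * n) (8 * f) u - H343E.piAP n (8 * f) u =
      (((Ioc n (4 * n)).filter (fun p : ℕ => p.Prime ∧ p ≡ u [MOD 8 * f])).card : ℝ) := by
    intro u
    unfold H343E.piAP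
    rw [sub_eq_iff_eq_add, add_comm]
    have : ((Icc 1 n).filter (fun p : ℕ => p.Prime ∧ p ≡ u [MOD 8 * f])).card +
        ((Ioc n (4 * n)).filter (fun p : ℕ => p.Prime ∧ p ≡ u [MOD 8 * f])).card =
        ((Icc 1 (4 * n)).filter (fun p : ℕ => p.Prime ∧ p ≡ u [MOD 8 * f])).card := by
      rw [← card_union_of_disjoint]
      · rw [← filter_union]
        congr 2
        ext i
        simp only [mem_union, mem_Ioc, mem_Icc]
        omega
      · rw [disjoint_left]
        intro a ha hb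
        rw [mem_filter, mem_Icc] at ha
        rw [mem_filter, mem_Ioc] at hb
        omega
    exact_mod_cast this.symm
  have hsum : ∑ u ∈ NN f D (-1), (((Ioc n (4 * n)).filter
      (fun p : ℕ => p.Prime ∧ p ≡ u [MOD 8 * f])).card : ℝ) ≤
      (((Ioc n (4 * n)).filter (fun p : ℕ => p.Prime ∧ jacobiSym D p = -1)).card : ℝ) := by
    have : ∑ u ∈ NN f D (-1), ((Ioc n (4 * n)).filter
        (fun p : ℕ => p.Prime ∧ p ≡ u [MOD 8 * f])).card ≤
        ((Ioc n (4 * n)).filter (fun p : ℕ => p.Prime ∧ jacobiSym D p = -1)).card := by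
      rw [← card_biUnion]
      · apply card_le_card
        intro p hp
        rw [mem_biUnion] at hp
        obtain ⟨u, hu, hp⟩ := hp
        rw [mem_filter] at hp ⊢
        rw [NN, mem_filter, mem_filter, mem_range] at hu
        refine ⟨hp.1, hp.2.1, ?_⟩
        have hodd := odd_of_coprime hu.1.2
        have hpodd : Odd p := by
          have h8 : p ≡ u [MOD 2] := hp.2.2.of_dvd ⟨4 * f, by ring⟩
          rw [Nat.odd_iff] at hodd ⊢
          rw [← hodd]
          exact h8
        rw [jac_congr (dvd_of_D f D hD) hpodd hodd hp.2.2]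
        exact hu.2
      · intro u hu v hv huv
        rw [Function.onFun, disjoint_left]
        intro p hp hp'
        rw [mem_filter] at hp hp'
        apply huv
        have h1 : u ≡ v [MOD 8 * f] := hp.2.2.symm.trans hp'.2.2
        rw [mem_coe, NN, mem_filter, mem_filter, mem_range] at hu hv
        exact Nat.ModEq.eq_of_lt_of_lt h1 hu.1.1 hv.1.1
    exact_mod_cast this
  refine le_trans ?_ hsum
  have hsub : NN f D (-1) ⊆ (range (8 * f)).filter (fun u => u.Coprime (8 * f)) :=
    filter_subset _ _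
  have hee : ∀ x : ℕ, ∑ u ∈ NN f D (-1),
      |H343E.piAP x (8 * f) u - H343E.pi1 x / ((8 * f).totient : ℝ)| ≤ ee x (8 * f) := by
    intro x
    exact sum_le_sum_of_subset_of_nonneg hsub (fun _ _ _ => abs_nonneg _)
  have hcard := card_NN f hf hsq D hD hD1
  have hcardR : ((NN f D (-1)).card : ℝ) = (1 / 2) * ((8 * f).totient : ℝ) := by
    have : (2 : ℝ) * ((NN f D (-1)).card : ℝ) = ((8 * f).totient : ℝ) := by exact_mod_cast hcard
    linarith
  have hterm : ∀ u ∈ NN f D (-1), (H343E.pi1 (4 * n) - H343E.pi1 n) / ((8 * f).totient : ℝ) -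
      |H343E.piAP (4 * n) (8 * f) u - H343E.pi1 (4 * n) / ((8 * f).totient : ℝ)| -
      |H343E.piAP n (8 * f) u - H343E.pi1 n / ((8 * f).totient : ℝ)| ≤
      (((Ioc n (4 * n)).filter (fun p : ℕ => p.Prime ∧ p ≡ u [MOD 8 * f])).card : ℝ) := by
    intro u _
    rw [← hap u, sub_div]
    have h1 := neg_abs_le (H343E.piAP (4 * n) (8 * f) u -
      H343E.pi1 (4 * n) / ((8 * f).totient : ℝ))
    have h2 := le_abs_self (H343E.piAP n (8 * f) u - H343E.pi1 n / ((8 * f).totient : ℝ))
    linarith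
  refine le_trans ?_ (sum_le_sum hterm)
  rw [sum_sub_distrib, sum_sub_distrib, sum_const, nsmul_eq_mul, hcardR]
  have h1 := hee (4 * n)
  have h2 := hee n
  have h3 : (1 / 2) * ((8 * f).totient : ℝ) *
      ((H343E.pi1 (4 * n) - H343E.pi1 n) / ((8 * f).totient : ℝ)) =
      (1 / 2) * (H343E.pi1 (4 * n) - H343E.pi1 n) := by
    field_simp
  rw [h3]
  linarith

/-- a dichotomy: if no block is bad then `f` is not `Bad`. -/
theorem not_bad : ∃ Y1 : ℕ, ∀ Y : ℕ, Y1 ≤ Y → ∀ f : ℕ, Odd f → Squarefree f →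
    (∀ i < Nat.log 4 Y, ee (4 * (4 ^ i * Y)) (8 * f) + ee (4 ^ i * Y) (8 * f) ≤
      (1 / 4) * (((4 ^ i * Y : ℕ) : ℝ) / Real.log (4 * ((4 ^ i * Y : ℕ) : ℝ)))) →
    ¬ Bad (1 / 64) Y f := by
  classical
  obtain ⟨n0, hn0⟩ := primes_block
  have hev : ∀ᶠ x : ℕ in atTop, (5 : ℝ) ≤ Real.log x :=
    (Real.tendsto_log_atTop.comp tendsto_natCast_atTop_atTop).eventually (eventually_ge_atTop 5)
  obtain ⟨x1, hx1⟩ := eventually_atTop.1 hev
  refine ⟨max n0 (max x1 4), ?_⟩
  intro Y hY f hf hsq hgood hbad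
  have hYn0 : n0 ≤ Y := (le_max_left _ _).trans hY
  have hYx1 : x1 ≤ Y := (le_max_left _ _).trans ((le_max_right _ _).trans hY)
  have hY4 : 4 ≤ Y := (le_max_right _ _).trans ((le_max_right _ _).trans hY)
  have hY4R : (4 : ℝ) ≤ Y := by exact_mod_cast hY4
  have hlog5 := hx1 Y hYx1
  obtain ⟨D, hD, hD1, hlt⟩ := hbad
  set m := Nat.log 4 Y with hm
  have h4m : 4 ^ m ≤ Y := Nat.pow_log_le_self 4 (by omega)
  have h4m1 : Y < 4 ^ (m + 1) := Nat.lt_pow_succ_log_self (by norm_num) Y
  have hmR : Real.log Y / 2 ≤ m := by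
    have h1 : Real.log Y ≤ (m + 1) * Real.log 4 := by
      have : (Y : ℝ) ≤ (4 : ℝ) ^ (m + 1) := by exact_mod_cast h4m1.le
      have h2 := Real.log_le_log (by linarith) this
      rw [Real.log_pow] at h2
      exact_mod_cast h2
    have hlog4 : Real.log 4 = 2 * Real.log 2 := by
      rw [show (4 : ℝ) = 2 ^ 2 by norm_num, Real.log_pow]; norm_num
    have h3 := Real.log_two_lt_d9
    have h4 : (m + 1 : ℝ) * Real.log 4 ≤ (m + 1) * (1.4 : ℝ) := by
      apply mul_le_mul_of_nonneg_left _ (by positivity)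
      rw [hlog4]; linarith
    linarith
  -- blocks
  have hsub : (range m).biUnion (fun i => (Ioc (4 ^ i * Y) (4 * (4 ^ i * Y))).filter
      (fun p : ℕ => p.Prime ∧ jacobiSym D p = -1)) ⊆
      (Ioc Y (Y ^ 2)).filter (fun p : ℕ => p.Prime ∧ jacobiSym D p = -1) := by
    intro p hp
    rw [mem_biUnion] at hp
    obtain ⟨i, hi, hp⟩ := hp
    rw [mem_range] at hi
    rw [mem_filter, mem_Ioc] at hp ⊢
    refine ⟨⟨?_, ?_⟩, hp.2⟩
    · have : 1 * Y ≤ 4 ^ i * Y := Nat.mul_le_mul_right Y (Nat.one_le_pow _ _ (by norm_num))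
      omega
    · calc p ≤ 4 * (4 ^ i * Y) := hp.1.2
        _ = 4 ^ (i + 1) * Y := by ring
        _ ≤ 4 ^ m * Y := Nat.mul_le_mul_right Y (Nat.pow_le_pow_right (by norm_num) hi)
        _ ≤ Y * Y := Nat.mul_le_mul_right Y h4m
        _ = Y ^ 2 := by ring
  have hdisj : ∀ i ∈ range m, ∀ j ∈ range m, i ≠ j →
      Disjoint ((Ioc (4 ^ i * Y) (4 * (4 ^ i * Y))).filter
        (fun p : ℕ => p.Prime ∧ jacobiSym D p = -1))
      ((Ioc (4 ^ j * Y) (4 * (4 ^ j * Y))).filter
        (fun p : ℕ => p.Prime ∧ jacobiSym D p = -1)) := by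
    have key : ∀ i j : ℕ, i < j → ∀ p : ℕ, p ≤ 4 * (4 ^ i * Y) → ¬ 4 ^ j * Y < p := by
      intro i j hij p hp hp'
      have : 4 ^ (i + 1) * Y ≤ 4 ^ j * Y :=
        Nat.mul_le_mul_right Y (Nat.pow_le_pow_right (by norm_num) hij)
      have h2 : 4 ^ (i + 1) * Y = 4 * (4 ^ i * Y) := by ring
      omega
    intro i _ j _ hij
    rw [disjoint_left]
    intro p hp hp'
    rw [mem_filter, mem_Ioc] at hp hp'
    rcases Nat.lt_or_gt_of_ne hij with h | h
    · exact key i j h p hp.1.2 hp'.1.1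
    · exact key j i h p hp'.1.2 hp.1.1
  have hge : (1 / 64 : ℝ) ≤ ∑ p ∈ (Ioc Y (Y ^ 2)).filter
      (fun p : ℕ => p.Prime ∧ jacobiSym D p = -1), (1 : ℝ) / p := by
    calc (1 / 64 : ℝ) ≤ ∑ i ∈ range m, 1 / (32 * Real.log Y) := by
          rw [sum_const, card_range, nsmul_eq_mul, mul_one_div, div_le_div_iff₀ (by norm_num)
            (by linarith)]
          linarith
      _ ≤ ∑ i ∈ range m, ∑ p ∈ (Ioc (4 ^ i * Y) (4 * (4 ^ i * Y))).filter
            (fun p : ℕ => p.Prime ∧ jacobiSym D p = -1), (1 : ℝ) / p := by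
          apply sum_le_sum
          intro i hi
          rw [mem_range] at hi
          set x := 4 ^ i * Y with hx
          have hYx : Y ≤ x := by
            rw [hx]; exact Nat.le_mul_of_pos_left Y (by positivity)
          have hYxR : (Y : ℝ) ≤ x := by exact_mod_cast hYx
          have hx4 : (4 : ℝ) ≤ x := by linarith
          have h4x : 4 * x ≤ Y ^ 2 := by
            calc 4 * x = 4 ^ (i + 1) * Y := by rw [hx]; ring
              _ ≤ 4 ^ m * Y := Nat.mul_le_mul_right Y (Nat.pow_le_pow_right (by norm_num) hi)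
              _ ≤ Y * Y := Nat.mul_le_mul_right Y h4m
              _ = Y ^ 2 := by ring
          have h4xR : (4 : ℝ) * x ≤ (Y : ℝ) ^ 2 := by exact_mod_cast h4x
          have hlogx : Real.log (4 * x) ≤ 2 * Real.log Y := by
            have := Real.log_le_log (by linarith) h4xR
            rw [Real.log_pow] at this
            exact_mod_cast this
          have hlogx0 : 0 < Real.log (4 * x) := Real.log_pos (by linarith)
          have hb := block_lower f hf hsq D hD hD1 x (hn0 x (hYn0.trans hYx))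
          have hg := hgood i hi
          rw [← hx] at hg
          have hcard : (1 / 4) * ((x : ℝ) / Real.log (4 * x)) ≤
              (((Ioc x (4 * x)).filter (fun p : ℕ => p.Prime ∧ jacobiSym D p = -1)).card : ℝ) := by
            linarith
          have hxpos : (0 : ℝ) < x := by linarith
          calc 1 / (32 * Real.log Y) ≤ 1 / (16 * Real.log (4 * x)) := by
                apply one_div_le_one_div_of_le (by positivity)
                linarith
            _ = ((1 / 4) * ((x : ℝ) / Real.log (4 * x))) * (1 / (4 * x)) := by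
                field_simp
                norm_num
            _ ≤ (((Ioc x (4 * x)).filter (fun p : ℕ => p.Prime ∧ jacobiSym D p = -1)).card : ℝ) *
                  (1 / (4 * x)) := mul_le_mul_of_nonneg_right hcard (by positivity)
            _ = ∑ p ∈ (Ioc x (4 * x)).filter (fun p : ℕ => p.Prime ∧ jacobiSym D p = -1),
                  (1 : ℝ) / (4 * x) := by rw [sum_const, nsmul_eq_mul]
            _ ≤ _ := by
                apply sum_le_sum
                intro p hp
                rw [mem_filter, mem_Ioc] at hp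
                apply one_div_le_one_div_of_le
                · exact_mod_cast hp.2.1.pos
                · exact_mod_cast hp.1.2
      _ = ∑ p ∈ (range m).biUnion (fun i => (Ioc (4 ^ i * Y) (4 * (4 ^ i * Y))).filter
            (fun p : ℕ => p.Prime ∧ jacobiSym D p = -1)), (1 : ℝ) / p := by
          rw [sum_biUnion]
          intro i hi j hj hij
          exact hdisj i hi j hj hij
      _ ≤ _ := sum_le_sum_of_subset_of_nonneg hsub (fun _ _ _ => by positivity)
  linarith

theorem three_pow_le (f : ℕ) (hf : f ≠ 0) :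
    (3 : ℝ) ^ f.primeFactors.card ≤ ((8 * f).divisors.card : ℝ) ^ 2 := by
  have h1 : 2 ^ f.primeFactors.card ≤ f.divisors.card := by
    have h2 : (f.primeFactors.powerset).card ≤ f.divisors.card := by
      apply card_le_card_of_injOn (fun s => ∏ p ∈ s, p)
      · intro s hs
        rw [mem_coe, mem_powerset] at hs
        rw [mem_coe, Nat.mem_divisors]
        refine ⟨?_, hf⟩
        exact (prod_dvd_prod_of_subset _ _ _ hs).trans (Nat.prod_primeFactors_dvd f)
      · intro s hs t ht hst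
        rw [mem_coe, mem_powerset] at hs ht
        have h3 : (∏ p ∈ s, p).primeFactors = s :=
          Nat.primeFactors_prod (fun p hp => Nat.prime_of_mem_primeFactors (hs hp))
        have h4 : (∏ p ∈ t, p).primeFactors = t :=
          Nat.primeFactors_prod (fun p hp => Nat.prime_of_mem_primeFactors (ht hp))
        simp only at hst
        rw [← h3, ← h4, hst]
    rwa [card_powerset] at h2
  have h5 : f.divisors.card ≤ (8 * f).divisors.card :=
    card_le_card (Nat.divisors_subset_of_dvd (by omega) ⟨8, by ring⟩)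
  have h6 : (2 : ℝ) ^ f.primeFactors.card ≤ ((8 * f).divisors.card : ℝ) := by
    exact_mod_cast h1.trans h5
  calc (3 : ℝ) ^ f.primeFactors.card ≤ 4 ^ f.primeFactors.card :=
        pow_le_pow_left₀ (by norm_num) (by norm_num) _
    _ = ((2 : ℝ) ^ f.primeFactors.card) ^ 2 := by
        rw [← pow_mul, mul_comm, pow_mul]; norm_num
    _ ≤ _ := pow_le_pow_left₀ (by positivity) h6 2

/-- sum over `f` of one discrepancy -/
theorem sum_f (hEE : St_EE) : ∃ Y2 : ℕ, ∀ Y : ℕ, Y2 ≤ Y → ∀ x : ℕ, Y ≤ x → ∀ S : Finset ℕ,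
    (∀ f ∈ S, f ≠ 0 ∧ f ^ 4 ≤ Y) →
    ∑ f ∈ S, (3 : ℝ) ^ f.primeFactors.card / f * ee x (8 * f) ≤ 8 * (x / Real.log x ^ 3) := by
  classical
  obtain ⟨x0, h⟩ := hEE 2 3 (1 / 2) (by norm_num)
  refine ⟨max x0 4096, ?_⟩
  intro Y hY x hYx S hS
  have hx0 : x0 ≤ x := ((le_max_left _ _).trans hY).trans hYx
  have hY4096 : 4096 ≤ Y := (le_max_right _ _).trans hY
  have hD : ((⌊(x : ℝ) ^ (1 / 2 : ℝ)⌋₊ : ℕ) : ℝ) ≤ (x : ℝ) ^ (1 - 1 / 2 : ℝ) := by
    have : (1 - 1 / 2 : ℝ) = 1 / 2 := by norm_num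
    rw [this]
    exact Nat.floor_le (by positivity)
  have key := h x hx0 _ hD
  have himg : S.image (fun f : ℕ => (8 * f : ℕ)) ⊆ Icc 1 ⌊(x : ℝ) ^ (1 / 2 : ℝ)⌋₊ := by
    intro Q hQ
    rw [mem_image] at hQ
    obtain ⟨f, hf, rfl⟩ := hQ
    obtain ⟨hf0, hf4⟩ := hS f hf
    rw [mem_Icc]
    refine ⟨by omega, ?_⟩
    apply Nat.le_floor
    rw [← Real.sqrt_eq_rpow]
    apply Real.le_sqrt_of_sq_le
    have h64 : 64 * f ^ 2 ≤ x := by
      have h1 : (64 * f ^ 2) ^ 2 ≤ Y ^ 2 := by
        calc (64 * f ^ 2) ^ 2 = 4096 * f ^ 4 := by ring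
          _ ≤ Y * Y := Nat.mul_le_mul hY4096 hf4
          _ = Y ^ 2 := by ring
      exact ((Nat.pow_le_pow_iff_left (n := 2) (by norm_num)).1 h1).trans hYx
    push_cast
    calc (8 * (f : ℝ)) ^ 2 = ((64 * f ^ 2 : ℕ) : ℝ) := by push_cast; ring
      _ ≤ x := by exact_mod_cast h64
  calc ∑ f ∈ S, (3 : ℝ) ^ f.primeFactors.card / f * ee x (8 * f) ≤
      ∑ f ∈ S, 8 * (((8 * f).divisors.card : ℝ) ^ 2 / ((8 * f : ℕ) : ℝ) * ee x (8 * f)) := by
        apply sum_le_sum
        intro f hf
        obtain ⟨hf0, _⟩ := hS f hf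
        have hfR : (0 : ℝ) < f := by exact_mod_cast Nat.pos_of_ne_zero hf0
        rw [← mul_assoc]
        apply mul_le_mul_of_nonneg_right _ (ee_nonneg _ _)
        have h1 := three_pow_le f hf0
        calc (3 : ℝ) ^ f.primeFactors.card / f ≤ ((8 * f).divisors.card : ℝ) ^ 2 / f := by
              gcongr
          _ = _ := by push_cast; field_simp
    _ = 8 * ∑ Q ∈ S.image (fun f : ℕ => (8 * f : ℕ)), ((Q.divisors.card : ℝ) ^ 2 / (Q : ℝ) * ee x Q) := by
        rw [← mul_sum, sum_image]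
        intro a _ b _ hab
        simp only at hab
        omega
    _ ≤ 8 * ∑ Q ∈ Icc 1 ⌊(x : ℝ) ^ (1 / 2 : ℝ)⌋₊,
          ((Q.divisors.card : ℝ) ^ 2 / (Q : ℝ) * ee x Q) := by
        apply mul_le_mul_of_nonneg_left _ (by norm_num)
        exact sum_le_sum_of_subset_of_nonneg himg
          (fun Q _ _ => mul_nonneg (by positivity) (ee_nonneg _ _))
    _ ≤ _ := mul_le_mul_of_nonneg_left key (by norm_num)

theorem BC (hEE : St_EE) : St_BC := by
  classical
  obtain ⟨Y1, h1⟩ := not_bad
  obtain ⟨Y2, h2⟩ := sum_f hEE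
  refine ⟨1 / 64, by norm_num, ?_⟩
  intro η hη
  have hev : ∀ᶠ x : ℕ in atTop, max 2 (320 / η) ≤ Real.log x :=
    (Real.tendsto_log_atTop.comp tendsto_natCast_atTop_atTop).eventually (eventually_ge_atTop _)
  obtain ⟨x1, hx1⟩ := eventually_atTop.1 hev
  refine ⟨max (max Y1 Y2) (max x1 4), ?_⟩
  intro Y hY S hS
  have hY1 : Y1 ≤ Y := (le_max_left _ _).trans ((le_max_left _ _).trans hY)
  have hY2 : Y2 ≤ Y := (le_max_right _ _).trans ((le_max_left _ _).trans hY)
  have hYx1 : x1 ≤ Y := (le_max_left _ _).trans ((le_max_right _ _).trans hY)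
  have hY4 : 4 ≤ Y := (le_max_right _ _).trans ((le_max_right _ _).trans hY)
  have hY4R : (4 : ℝ) ≤ Y := by exact_mod_cast hY4
  have hlogY := hx1 Y hYx1
  have hlog2 : 2 ≤ Real.log Y := (le_max_left _ _).trans hlogY
  have hlogη : 320 / η ≤ Real.log Y := (le_max_right _ _).trans hlogY
  set m := Nat.log 4 Y with hm
  have h4m : 4 ^ m ≤ Y := Nat.pow_log_le_self 4 (by omega)
  have hmlog : (m : ℝ) ≤ Real.log Y := by
    have h3 : Real.log ((4 : ℝ) ^ m) ≤ Real.log Y :=
      Real.log_le_log (by positivity) (by exact_mod_cast h4m)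
    rw [Real.log_pow] at h3
    have hlog4 : Real.log 4 = 2 * Real.log 2 := by
      rw [show (4 : ℝ) = 2 ^ 2 by norm_num, Real.log_pow]; norm_num
    have h4 := Real.log_two_gt_d9
    have h5 : (m : ℝ) * 1 ≤ m * Real.log 4 := by
      apply mul_le_mul_of_nonneg_left _ (by positivity)
      rw [hlog4]; linarith
    linarith
  -- weight of a block
  set wt : ℕ → ℕ → ℝ := fun i f => 4 * Real.log (4 * ((4 ^ i * Y : ℕ) : ℝ)) /
    ((4 ^ i * Y : ℕ) : ℝ) * (ee (4 * (4 ^ i * Y)) (8 * f) + ee (4 ^ i * Y) (8 * f)) with hwt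
  have hxpos : ∀ i : ℕ, (Y : ℝ) ≤ ((4 ^ i * Y : ℕ) : ℝ) := by
    intro i
    have : Y ≤ 4 ^ i * Y := Nat.le_mul_of_pos_left Y (by positivity)
    exact_mod_cast this
  have hwt0 : ∀ i f, 0 ≤ wt i f := by
    intro i f
    have := hxpos i
    rw [hwt]
    apply mul_nonneg
    · apply div_nonneg
      · apply mul_nonneg (by norm_num)
        apply Real.log_nonneg
        linarith
      · positivity
    · exact add_nonneg (ee_nonneg _ _) (ee_nonneg _ _)
  have hone : ∀ f ∈ S, 1 ≤ ∑ i ∈ range m, wt i f := by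
    intro f hf
    obtain ⟨hodd, hsq, hf4, hbad⟩ := hS f hf
    have : ∃ i < m, (1 / 4) * (((4 ^ i * Y : ℕ) : ℝ) / Real.log (4 * ((4 ^ i * Y : ℕ) : ℝ))) <
        ee (4 * (4 ^ i * Y)) (8 * f) + ee (4 ^ i * Y) (8 * f) := by
      by_contra hcon
      push Not at hcon
      exact h1 Y hY1 f hodd hsq hcon hbad
    obtain ⟨i, hi, hlt⟩ := this
    refine le_trans ?_ (single_le_sum (fun j _ => hwt0 j f) (mem_range.2 hi))
    have hxp := hxpos i
    have hx0 : (0 : ℝ) < ((4 ^ i * Y : ℕ) : ℝ) := by linarith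
    have hl0 : 0 < Real.log (4 * ((4 ^ i * Y : ℕ) : ℝ)) := Real.log_pos (by linarith)
    rw [hwt]
    simp only
    have h6 : 4 * Real.log (4 * ((4 ^ i * Y : ℕ) : ℝ)) / ((4 ^ i * Y : ℕ) : ℝ) *
        ((1 / 4) * (((4 ^ i * Y : ℕ) : ℝ) / Real.log (4 * ((4 ^ i * Y : ℕ) : ℝ)))) = 1 := by
      field_simp
    rw [← h6]
    exact mul_le_mul_of_nonneg_left hlt.le (by positivity)
  calc ∑ f ∈ S, (3 : ℝ) ^ f.primeFactors.card / f ≤
      ∑ f ∈ S, (3 : ℝ) ^ f.primeFactors.card / f * ∑ i ∈ range m, wt i f := by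
        apply sum_le_sum
        intro f hf
        exact le_mul_of_one_le_right (by positivity) (hone f hf)
    _ = ∑ i ∈ range m, ∑ f ∈ S, (3 : ℝ) ^ f.primeFactors.card / f * wt i f := by
        rw [sum_comm]
        apply sum_congr rfl
        intro f _
        rw [mul_sum]
    _ ≤ ∑ i ∈ range m, 320 / Real.log Y ^ 2 := by
        apply sum_le_sum
        intro i _
        set x := 4 ^ i * Y with hx
        have hxp : (Y : ℝ) ≤ (x : ℝ) := hxpos i
        have hYx : Y ≤ x := by exact_mod_cast hxp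
        have hx0 : (0 : ℝ) < x := by linarith
        have hlx : Real.log Y ≤ Real.log x := Real.log_le_log (by linarith) hxp
        have hlx0 : 0 < Real.log x := by linarith
        have hl4 : Real.log (4 * x) ≤ 2 * Real.log x := by
          have : Real.log (4 * x) ≤ Real.log ((x : ℝ) ^ 2) := by
            apply Real.log_le_log (by linarith)
            nlinarith
          rw [Real.log_pow] at this
          exact_mod_cast this
        have hl4' : Real.log x ≤ Real.log (4 * x) := Real.log_le_log hx0 (by linarith)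
        have hA : ∑ f ∈ S, (3 : ℝ) ^ f.primeFactors.card / f * ee (4 * x) (8 * f) ≤
            8 * (4 * x / Real.log x ^ 3) := by
          have := h2 Y hY2 (4 * x) (by omega) S (fun f hf => ⟨(hS f hf).2.1.ne_zero,
            (hS f hf).2.2.1⟩)
          refine this.trans ?_
          push_cast
          gcongr
        have hB : ∑ f ∈ S, (3 : ℝ) ^ f.primeFactors.card / f * ee x (8 * f) ≤
            8 * (x / Real.log x ^ 3) :=
          h2 Y hY2 x hYx S (fun f hf => ⟨(hS f hf).2.1.ne_zero, (hS f hf).2.2.1⟩)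
        have hsplit : ∑ f ∈ S, (3 : ℝ) ^ f.primeFactors.card / f * wt i f =
            4 * Real.log (4 * x) / x *
              (∑ f ∈ S, (3 : ℝ) ^ f.primeFactors.card / f * ee (4 * x) (8 * f) +
                ∑ f ∈ S, (3 : ℝ) ^ f.primeFactors.card / f * ee x (8 * f)) := by
          rw [← sum_add_distrib, mul_sum]
          apply sum_congr rfl
          intro f _
          rw [hwt]
          simp only
          rw [← hx]
          ring
        rw [hsplit]
        calc 4 * Real.log (4 * x) / x *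
              (∑ f ∈ S, (3 : ℝ) ^ f.primeFactors.card / f * ee (4 * x) (8 * f) +
                ∑ f ∈ S, (3 : ℝ) ^ f.primeFactors.card / f * ee x (8 * f)) ≤
            4 * (2 * Real.log x) / x * (8 * (4 * x / Real.log x ^ 3) + 8 * (x / Real.log x ^ 3)) := by
              apply mul_le_mul _ (add_le_add hA hB) _ (by positivity)
              · gcongr
              · apply add_nonneg <;>
                exact sum_nonneg (fun f _ => mul_nonneg (by positivity) (ee_nonneg _ _))
          _ = 320 / Real.log x ^ 2 := by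
              field_simp
              norm_num
          _ ≤ 320 / Real.log Y ^ 2 := by
              apply div_le_div_of_nonneg_left (by norm_num) (by positivity)
              exact pow_le_pow_left₀ (by linarith) hlx 2
    _ = (m : ℝ) * (320 / Real.log Y ^ 2) := by rw [sum_const, card_range, nsmul_eq_mul]
    _ ≤ Real.log Y * (320 / Real.log Y ^ 2) := mul_le_mul_of_nonneg_right hmlog (by positivity)
    _ = 320 / Real.log Y := by
        have : 0 < Real.log Y := by linarith
        field_simp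
    _ ≤ η := by
        rw [div_le_iff₀ (by linarith)]
        rw [div_le_iff₀ hη] at hlogη
        linarith

end Pool.Agent.Y515.RP
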