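import Pool.Agent.Y667.RP.Stm
import Pool.Agent.H343R2.EH.Psi
import Pool.Agent.H343R2.EH.Primes
import Pool.Agent.W37.RK.BL1

/-!
Project RP (helper667): weighted mean of the prime discrepancies.
-/

set_option autoImplicit false

open Finset Filter

namespace Pool.Agent.Y515.RP

open Pool.Agent.Y667.RP

theorem ee_nonneg (x Q : ℕ) : 0 ≤ ee x Q := sum_nonneg (fun _ _ => abs_nonneg _)

theorem pi1_nonneg (x : ℕ) : 0 ≤ H343E.pi1 x := by
  unfold H343E.pi1; positivity

theorem piAP_nonneg (x q a : ℕ) : 0 ≤ H343E.piAP x q a := by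
  unfold H343E.piAP; positivity

theorem pi1_le (x : ℕ) : H343E.pi1 x ≤ x := by
  unfold H343E.pi1
  have h : ((Icc 1 x).filter (fun p => p.Prime)).card ≤ x := by
    refine (card_filter_le _ _).trans ?_
    simp
  exact_mod_cast h

theorem sum_piAP_le (x Q : ℕ) :
    ∑ a ∈ (range Q).filter (fun a => a.Coprime Q), H343E.piAP x Q a ≤ H343E.pi1 x := by
  unfold H343E.piAP H343E.pi1
  have h : ∑ a ∈ (range Q).filter (fun a => a.Coprime Q),
      ((Icc 1 x).filter (fun p => p.Prime ∧ p ≡ a [MOD Q])).card ≤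
      ((Icc 1 x).filter (fun p => p.Prime)).card := by
    rw [← card_biUnion]
    · apply card_le_card
      intro p hp
      rw [mem_biUnion] at hp
      obtain ⟨a, _, ha⟩ := hp
      rw [mem_filter] at ha ⊢
      exact ⟨ha.1, ha.2.1⟩
    · intro a ha b hb hab
      rw [Function.onFun, disjoint_left]
      intro p hp hp'
      rw [mem_filter] at hp hp'
      apply hab
      have h1 : a ≡ b [MOD Q] := hp.2.2.symm.trans hp'.2.2
      rw [mem_coe, mem_filter, mem_range] at ha hb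
      exact Nat.ModEq.eq_of_lt_of_lt h1 ha.1 hb.1
  exact_mod_cast h

theorem ee_le (x Q : ℕ) : ee x Q ≤ 2 * x := by
  unfold ee
  have h1 : ∀ a ∈ (range Q).filter (fun a => a.Coprime Q),
      |H343E.piAP x Q a - H343E.pi1 x / (Q.totient : ℝ)| ≤
      H343E.piAP x Q a + H343E.pi1 x / (Q.totient : ℝ) := by
    intro a _
    have h2 := piAP_nonneg x Q a
    have h3 : 0 ≤ H343E.pi1 x / (Q.totient : ℝ) := div_nonneg (pi1_nonneg x) (by positivity)
    rw [abs_le]
    constructor <;> linarith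
  refine (sum_le_sum h1).trans ?_
  rw [sum_add_distrib, sum_const, nsmul_eq_mul]
  have h4 : (((range Q).filter (fun a => a.Coprime Q)).card : ℝ) *
      (H343E.pi1 x / (Q.totient : ℝ)) ≤ H343E.pi1 x := by
    have h5 : ((range Q).filter (fun a => a.Coprime Q)).card = Q.totient := by
      rw [Nat.totient_eq_card_coprime]
      congr 1
      ext a
      simp only [mem_filter, mem_range, Nat.coprime_comm]
    rw [h5]
    rcases Nat.eq_zero_or_pos Q.totient with h0 | h0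
    · rw [h0]; simp [pi1_nonneg x]
    · have : (0 : ℝ) < Q.totient := by exact_mod_cast h0
      rw [mul_div_assoc', mul_comm, mul_div_assoc, div_self this.ne', mul_one]
  have h6 := sum_piAP_le x Q
  have h7 := pi1_le x
  linarith

/-- Abel summation -/
theorem abel (a : ℕ → ℝ) (D : ℕ) : ∑ Q ∈ Icc 1 D, a Q / Q =
    ∑ n ∈ Icc 1 D, (∑ Q ∈ Icc 1 n, a Q) / ((n : ℝ) * (n + 1)) +
      (∑ Q ∈ Icc 1 D, a Q) / ((D : ℝ) + 1) := by
  induction D with
  | zero => simp
  | succ D ih =>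
    rw [sum_Icc_succ_top (by omega), ih, sum_Icc_succ_top (by omega)
      (fun n : ℕ => (∑ Q ∈ Icc 1 n, a Q) / ((n : ℝ) * (n + 1))),
      sum_Icc_succ_top (by omega) a]
    push_cast
    field_simp
    ring

/-- `log^B x ≤ x^δ` eventually -/
theorem ev_log_le (B : ℕ) (δ : ℝ) (hδ : 0 < δ) : ∃ x0 : ℝ, 0 < x0 ∧ ∀ x : ℝ, x0 ≤ x →
    Real.log x ^ B ≤ x ^ δ := by
  have h := (isLittleO_log_rpow_rpow_atTop (B : ℝ) hδ).bound one_pos
  obtain ⟨x0, hx0⟩ := eventually_atTop.1 h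
  refine ⟨max x0 1, by positivity, ?_⟩
  intro x hx
  have h1 := hx0 x (le_trans (le_max_left _ _) hx)
  have hx1 : 1 ≤ x := le_trans (le_max_right _ _) hx
  rw [one_mul, Real.norm_eq_abs, Real.norm_eq_abs, Real.rpow_natCast] at h1
  refine (le_abs_self _).trans (h1.trans ?_)
  rw [abs_of_nonneg (by positivity)]

theorem sum_ee (U : ℕ) (δ : ℝ) (hδ : 0 < δ) : ∃ x0 : ℕ, ∀ x : ℕ, x0 ≤ x → ∀ D : ℕ,
    (D : ℝ) ≤ (x : ℝ) ^ (1 - δ) → ∑ Q ∈ Icc 1 D, ee x Q ≤ D * (x / Real.log x ^ U) := by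
  obtain ⟨B, x0, h⟩ := H343E.primes_of U (H343E.unsmoothed (U + 2))
  obtain ⟨x1, hx1, hlog⟩ := ev_log_le B δ hδ
  refine ⟨max x0 (max ⌈x1⌉₊ 3), ?_⟩
  intro x hx D hD
  have hx0 : x0 ≤ x := (le_max_left _ _).trans hx
  have hx2 : ⌈x1⌉₊ ≤ x := (le_max_left _ _).trans ((le_max_right _ _).trans hx)
  have hx3 : 3 ≤ x := (le_max_right _ _).trans ((le_max_right _ _).trans hx)
  have hxR : x1 ≤ (x : ℝ) := Nat.ceil_le.1 hx2
  have hx3R : (3 : ℝ) ≤ (x : ℝ) := by exact_mod_cast hx3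
  have hlogpos : 0 < Real.log x := Real.log_pos (by linarith)
  rcases Nat.eq_zero_or_pos D with h0 | h0
  · subst h0; simp
  have hD1 : (1 : ℝ) ≤ D := by exact_mod_cast h0
  have hDx : (D : ℝ) ≤ x / Real.log x ^ B := by
    rw [le_div_iff₀ (by positivity)]
    calc (D : ℝ) * Real.log x ^ B ≤ (x : ℝ) ^ (1 - δ) * (x : ℝ) ^ δ :=
          mul_le_mul hD (hlog x hxR) (by positivity) (by positivity)
      _ = x := by
          rw [← Real.rpow_add (by linarith)]
          rw [sub_add_cancel, Real.rpow_one]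
  have hD2 : (D : ℝ) ^ 2 ≤ D * x / Real.log x ^ B := by
    rw [sq, mul_div_assoc]
    exact mul_le_mul_of_nonneg_left hDx (by positivity)
  have hF : H343E.Fam (D : ℝ) (fun q => if q ≤ D then (range q).filter (fun a => a.Coprime q)
      else ∅) := by
    constructor
    · intro q a ha
      split_ifs at ha with hq
      · rw [mem_filter, mem_range] at ha
        exact ha
      · simp at ha
    · intro q
      split_ifs with hq
      · have : ((range q).filter (fun a => a.Coprime q)).card ≤ q := by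
          refine (card_filter_le _ _).trans ?_
          simp
        have h2 : ((range q).filter (fun a => a.Coprime q)).card ≤ D := this.trans hq
        exact_mod_cast h2
      · simp
  have key := h x hx0 D hD1 D hDx hD2 _ hF
  rw [mul_div_assoc] at key
  refine le_trans (le_of_eq ?_) key
  apply sum_congr rfl
  intro Q hQ
  rw [mem_Icc] at hQ
  rw [if_pos hQ.2]
  rfl

theorem sum_ee_div (U : ℕ) (δ : ℝ) (hδ : 0 < δ) : ∃ x0 : ℕ, ∀ x : ℕ, x0 ≤ x → ∀ D : ℕ,
    (D : ℝ) ≤ (x : ℝ) ^ (1 - δ) →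
    ∑ Q ∈ Icc 1 D, ee x Q / Q ≤ (2 + Real.log D) * (x / Real.log x ^ U) := by
  obtain ⟨x0, h⟩ := sum_ee U δ hδ
  refine ⟨max x0 3, ?_⟩
  intro x hx D hD
  have hx0 : x0 ≤ x := (le_max_left _ _).trans hx
  have hx3 : 3 ≤ x := (le_max_right _ _).trans hx
  have hx3R : (3 : ℝ) ≤ (x : ℝ) := by exact_mod_cast hx3
  have hlogpos : 0 < Real.log x := Real.log_pos (by linarith)
  set W := (x : ℝ) / Real.log x ^ U with hW
  have hW0 : 0 ≤ W := by positivity
  rw [abel]
  have h1 : ∀ n ∈ Icc 1 D, (∑ Q ∈ Icc 1 n, ee x Q) / ((n : ℝ) * (n + 1)) ≤ W * (1 / (n : ℝ)) := by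
    intro n hn
    rw [mem_Icc] at hn
    have hn0 : (0 : ℝ) < n := by exact_mod_cast hn.1
    have h2 := h x hx0 n (le_trans (by exact_mod_cast hn.2) hD)
    rw [div_le_iff₀ (by positivity)]
    refine h2.trans ?_
    have : W * (1 / (n : ℝ)) * ((n : ℝ) * (n + 1)) = W * (n + 1) := by field_simp
    rw [this]
    nlinarith
  have h3 : (∑ Q ∈ Icc 1 D, ee x Q) / ((D : ℝ) + 1) ≤ W := by
    rw [div_le_iff₀ (by positivity)]
    refine (h x hx0 D hD).trans ?_
    nlinarith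
  refine (add_le_add (sum_le_sum h1) h3).trans ?_
  rw [← mul_sum]
  have h4 := W37.RK.harm_le D
  nlinarith

theorem EE : St_EE := by
  intro C U δ hδ
  set K := 2 ^ (2 * C) with hK
  obtain ⟨x0, h⟩ := sum_ee_div (2 * U + 2 * K + 4) δ hδ
  have hev : ∀ᶠ x : ℕ in atTop, (2 : ℝ) ≤ Real.log x :=
    (Real.tendsto_log_atTop.comp tendsto_natCast_atTop_atTop).eventually (eventually_ge_atTop 2)
  obtain ⟨x1, hx1⟩ := eventually_atTop.1 hev
  refine ⟨max x0 (max x1 3), ?_⟩
  intro x hx D hD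
  have hx0 : x0 ≤ x := (le_max_left _ _).trans hx
  have hx2 : x1 ≤ x := (le_max_left _ _).trans ((le_max_right _ _).trans hx)
  have hx3 : 3 ≤ x := (le_max_right _ _).trans ((le_max_right _ _).trans hx)
  have hx3R : (3 : ℝ) ≤ (x : ℝ) := by exact_mod_cast hx3
  set L := Real.log x with hL
  have hL2 : 2 ≤ L := hx1 x hx2
  have hL0 : 0 < L := by linarith
  have hlogD : Real.log D ≤ L := by
    rcases Nat.eq_zero_or_pos D with h0 | h0
    · subst h0; simp; linarith
    · apply Real.log_le_log (by exact_mod_cast h0)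
      refine hD.trans ?_
      calc (x : ℝ) ^ (1 - δ) ≤ (x : ℝ) ^ (1 : ℝ) :=
            Real.rpow_le_rpow_of_exponent_le (by linarith) (by linarith)
        _ = x := Real.rpow_one _
  have hlogD0 : 0 ≤ Real.log D := by
    rcases Nat.eq_zero_or_pos D with h0 | h0
    · subst h0; simp
    · apply Real.log_nonneg; exact_mod_cast h0
  have hcs : (∑ Q ∈ Icc 1 D, (Q.divisors.card : ℝ) ^ C / Q * ee x Q) ^ 2 ≤
      (∑ Q ∈ Icc 1 D, (Q.divisors.card : ℝ) ^ (2 * C) / Q * ee x Q) *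
        ∑ Q ∈ Icc 1 D, ee x Q / Q := by
    apply sum_sq_le_sum_mul_sum_of_sq_eq_mul
    · intro Q _; exact mul_nonneg (by positivity) (ee_nonneg _ _)
    · intro Q _; exact div_nonneg (ee_nonneg _ _) (by positivity)
    · intro Q _; ring
  have h1 : ∑ Q ∈ Icc 1 D, (Q.divisors.card : ℝ) ^ (2 * C) / Q * ee x Q ≤
      (2 * L) ^ K * (2 * x) := by
    calc ∑ Q ∈ Icc 1 D, (Q.divisors.card : ℝ) ^ (2 * C) / Q * ee x Q ≤
        ∑ Q ∈ Icc 1 D, (Q.divisors.card : ℝ) ^ (2 * C) / Q * (2 * x) :=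
          sum_le_sum (fun Q _ => mul_le_mul_of_nonneg_left (ee_le x Q) (by positivity))
      _ = (∑ Q ∈ Icc 1 D, (Q.divisors.card : ℝ) ^ (2 * C) / Q) * (2 * x) := by
          rw [sum_mul]
      _ ≤ (1 + Real.log D) ^ K * (2 * x) :=
          mul_le_mul_of_nonneg_right (W37.RK.sum_card_pow_div (2 * C) D) (by positivity)
      _ ≤ (2 * L) ^ K * (2 * x) := by
          apply mul_le_mul_of_nonneg_right _ (by positivity)
          apply pow_le_pow_left₀ (by linarith)
          linarith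
  have h2 := h x hx0 D hD
  have h2' : ∑ Q ∈ Icc 1 D, ee x Q / Q ≤ (2 * L) * (x / L ^ (2 * U + 2 * K + 4)) :=
    h2.trans (mul_le_mul_of_nonneg_right (by linarith) (by positivity))
  have hS0 : 0 ≤ ∑ Q ∈ Icc 1 D, ee x Q / Q :=
    sum_nonneg (fun Q _ => div_nonneg (ee_nonneg _ _) (by positivity))
  have h3 : (∑ Q ∈ Icc 1 D, (Q.divisors.card : ℝ) ^ C / Q * ee x Q) ^ 2 ≤
      ((x : ℝ) / L ^ U) ^ 2 := by
    refine hcs.trans ((mul_le_mul h1 h2' hS0 (by positivity)).trans ?_)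
    have e1 : (2 * L) ^ K * (2 * x) * ((2 * L) * (x / L ^ (2 * U + 2 * K + 4))) =
        (x : ℝ) ^ 2 * (4 * 2 ^ K * L ^ (K + 1)) / L ^ (2 * U + 2 * K + 4) := by
      rw [mul_pow, pow_succ]; ring
    have e2 : ((x : ℝ) / L ^ U) ^ 2 = (x : ℝ) ^ 2 / L ^ (2 * U) := by
      rw [div_pow, ← pow_mul, mul_comm U 2]
    rw [e1, e2, div_le_div_iff₀ (by positivity) (by positivity)]
    have e3 : (4 : ℝ) * 2 ^ K ≤ L ^ (K + 2) := by
      calc (4 : ℝ) * 2 ^ K = 2 ^ (K + 2) := by rw [pow_add]; norm_num; ring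
        _ ≤ L ^ (K + 2) := pow_le_pow_left₀ (by norm_num) hL2 _
    calc (x : ℝ) ^ 2 * (4 * 2 ^ K * L ^ (K + 1)) * L ^ (2 * U) ≤
        (x : ℝ) ^ 2 * (L ^ (K + 2) * L ^ (K + 1)) * L ^ (2 * U) := by gcongr
      _ = (x : ℝ) ^ 2 * L ^ (2 * U + 2 * K + 3) := by
          rw [mul_assoc, ← pow_add, ← pow_add]
          congr 2
          ring
      _ ≤ (x : ℝ) ^ 2 * L ^ (2 * U + 2 * K + 4) := by
          apply mul_le_mul_of_nonneg_left _ (by positivity)
          apply pow_le_pow_right₀ (by linarith)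
          omega
  exact le_of_sq_le_sq h3 (by positivity)

end Pool.Agent.Y515.RP
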