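import Pool.Agent.Y515.RP.EE

/-!
Project RP (helper667): the sum of the error terms.
-/

set_option autoImplicit false

open Finset Filter

namespace Pool.Agent.Y515.RP

open Pool.Agent.Y667.RP

theorem tau_mul_le (a b : ℕ) :
    ((a * b).divisors.card : ℝ) ≤ (a.divisors.card : ℝ) * b.divisors.card := by
  exact_mod_cast W37.RK.card_div_mul_le a b

theorem tau_le_of_dvd {a b : ℕ} (h : a ∣ b) (hb : b ≠ 0) :
    (a.divisors.card : ℝ) ≤ b.divisors.card := by
  exact_mod_cast card_le_card (Nat.divisors_subset_of_dvd hb h)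

theorem self_le_totient (r : ℕ) : r ≤ r.totient * r.divisors.card := by
  rcases Nat.eq_zero_or_pos r with h0 | h0
  · subst h0; simp
  calc r = ∑ d ∈ r.divisors, d.totient := (Nat.sum_totient r).symm
    _ ≤ ∑ d ∈ r.divisors, r.totient := by
        apply sum_le_sum
        intro d hd
        exact Nat.le_of_dvd (Nat.totient_pos.2 h0)
          (Nat.totient_dvd_of_dvd (Nat.dvd_of_mem_divisors hd))
    _ = r.totient * r.divisors.card := by rw [sum_const, smul_eq_mul, mul_comm]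

/-- two variables to one -/
theorem two_one (M R : ℕ) (H : ℕ → ℝ) (hH : ∀ n, 0 ≤ H n) :
    ∑ t ∈ Icc 1 M, ∑ r ∈ Icc 1 R, H (t * r) ≤
      ∑ n ∈ Icc 1 (M * R), (n.divisors.card : ℝ) * H n := by
  rw [← sum_product' (Icc 1 M) (Icc 1 R) (fun t r => H (t * r))]
  rw [← sum_fiberwise_of_maps_to (s := Icc 1 M ×ˢ Icc 1 R) (t := Icc 1 (M * R))
    (g := fun i => i.1 * i.2)]
  · apply sum_le_sum
    intro n hn
    rw [mem_Icc] at hn
    have h1 : ∑ i ∈ (Icc 1 M ×ˢ Icc 1 R).filter (fun i => i.1 * i.2 = n), H (i.1 * i.2) =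
        (((Icc 1 M ×ˢ Icc 1 R).filter (fun i => i.1 * i.2 = n)).card : ℝ) * H n := by
      rw [sum_congr rfl (g := fun _ => H n), sum_const, nsmul_eq_mul]
      intro i hi
      rw [mem_filter] at hi
      rw [hi.2]
    rw [h1]
    apply mul_le_mul_of_nonneg_right _ (hH n)
    have h2 : ((Icc 1 M ×ˢ Icc 1 R).filter (fun i => i.1 * i.2 = n)).card ≤
        n.divisorsAntidiagonal.card := by
      apply card_le_card
      intro i hi
      rw [mem_filter] at hi
      rw [Nat.mem_divisorsAntidiagonal]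
      exact ⟨hi.2, by omega⟩
    have h3 : n.divisorsAntidiagonal.card = n.divisors.card := by
      rw [← Nat.map_div_right_divisors, card_map]
    rw [h3] at h2
    exact_mod_cast h2
  · intro i hi
    rw [mem_product, mem_Icc, mem_Icc] at hi
    rw [mem_Icc]
    exact ⟨Nat.mul_pos hi.1.1 hi.2.1, Nat.mul_le_mul hi.1.2 hi.2.2⟩

/-- a divisor sum -/
theorem div_sum (K N : ℕ) (g : ℕ → ℝ) (hg : ∀ n, 0 ≤ g n) :
    ∑ n ∈ Icc 1 N, (n.divisors.card : ℝ) ^ K / n * ∑ t ∈ n.divisors, g t ≤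
      (1 + Real.log N) ^ (2 ^ K) * ∑ t ∈ Icc 1 N, (t.divisors.card : ℝ) ^ K / t * g t := by
  have h1 : ∑ n ∈ Icc 1 N, (n.divisors.card : ℝ) ^ K / n * ∑ t ∈ n.divisors, g t ≤
      ∑ n ∈ Icc 1 N, ∑ i ∈ n.divisorsAntidiagonal,
        ((i.1.divisors.card : ℝ) ^ K / i.1 * g i.1) * ((i.2.divisors.card : ℝ) ^ K / i.2) := by
    apply sum_le_sum
    intro n hn
    have h0 : ∑ t ∈ n.divisors, g t = ∑ i ∈ n.divisorsAntidiagonal, g i.1 :=
      (Nat.sum_divisorsAntidiagonal (fun t _ => g t)).symm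
    rw [h0, mul_sum]
    apply sum_le_sum
    intro i hi
    rw [Nat.mem_divisorsAntidiagonal] at hi
    rw [← hi.1]
    have h2 : (((i.1 * i.2).divisors.card : ℝ)) ^ K ≤
        (i.1.divisors.card : ℝ) ^ K * (i.2.divisors.card : ℝ) ^ K := by
      rw [← mul_pow]
      exact pow_le_pow_left₀ (by positivity) (tau_mul_le _ _) K
    calc _ ≤ ((i.1.divisors.card : ℝ) ^ K * (i.2.divisors.card : ℝ) ^ K) /
            ((i.1 * i.2 : ℕ) : ℝ) * g i.1 := by
          apply mul_le_mul_of_nonneg_right _ (hg _)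
          exact div_le_div_of_nonneg_right h2 (by positivity)
      _ = _ := by push_cast; rw [mul_div_mul_comm]; ring
  refine h1.trans ((W37.RK.sum_antidiag_le N (fun i => ((i.1.divisors.card : ℝ) ^ K / i.1 *
    g i.1) * ((i.2.divisors.card : ℝ) ^ K / i.2)) ?_).trans ?_)
  · intro i
    have := hg i.1
    positivity
  · rw [sum_product]
    simp_rw [← mul_sum]
    rw [← sum_mul, mul_comm]
    apply mul_le_mul_of_nonneg_right (W37.RK.sum_card_pow_div K N)
    exact sum_nonneg (fun t _ => mul_nonneg (by positivity) (hg t))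

theorem EE' (hEE : St_EE) (K U' Q0 : ℕ) (hQ0 : Q0 ≠ 0) : ∃ X0 : ℕ, ∀ X : ℕ, X0 ≤ X → ∀ y : ℕ,
    (X : ℝ) ^ (999 / 1000 : ℝ) ≤ y → ∀ N : ℕ, (N : ℝ) ≤ (X : ℝ) ^ (994 / 1000 : ℝ) →
    ∑ n ∈ Icc 1 N, (n.divisors.card : ℝ) ^ K / n * ee y (Q0 * n) ≤ y / Real.log X ^ U' := by
  classical
  obtain ⟨x0, h⟩ := hEE K (U' + 1) (1 / 1000) (by norm_num)
  have e1 : ∀ᶠ X : ℕ in atTop, (x0 : ℝ) ≤ (X : ℝ) ^ (999 / 1000 : ℝ) :=
    ((tendsto_rpow_atTop (by norm_num)).comp tendsto_natCast_atTop_atTop).eventually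
      (eventually_ge_atTop _)
  have e2 : ∀ᶠ X : ℕ in atTop, (Q0 : ℝ) ≤ (X : ℝ) ^ (4 / 1000 : ℝ) :=
    ((tendsto_rpow_atTop (by norm_num)).comp tendsto_natCast_atTop_atTop).eventually
      (eventually_ge_atTop _)
  have e3 : ∀ᶠ X : ℕ in atTop, (Q0 : ℝ) * 2 ^ (U' + 1) ≤ Real.log X :=
    (Real.tendsto_log_atTop.comp tendsto_natCast_atTop_atTop).eventually (eventually_ge_atTop _)
  obtain ⟨X0, hX0⟩ := eventually_atTop.1 (e1.and (e2.and e3))
  refine ⟨max X0 2, ?_⟩
  intro X hX y hy N hN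
  obtain ⟨h1, h2, h3⟩ := hX0 X ((le_max_left _ _).trans hX)
  have hX2 : (2 : ℝ) ≤ X := by exact_mod_cast (le_max_right _ _).trans hX
  have hyx0 : x0 ≤ y := by exact_mod_cast h1.trans hy
  have hL : 0 < Real.log X := Real.log_pos (by linarith)
  have hlogy : Real.log X / 2 ≤ Real.log y := by
    have := Real.log_le_log (by positivity) hy
    rw [Real.log_rpow (by linarith)] at this
    linarith
  have hD : ((Q0 * N : ℕ) : ℝ) ≤ (y : ℝ) ^ (1 - 1 / 1000 : ℝ) := by
    calc ((Q0 * N : ℕ) : ℝ) = (Q0 : ℝ) * N := by push_cast; ring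
      _ ≤ (X : ℝ) ^ (4 / 1000 : ℝ) * (X : ℝ) ^ (994 / 1000 : ℝ) :=
          mul_le_mul h2 hN (by positivity) (by positivity)
      _ = (X : ℝ) ^ (998 / 1000 : ℝ) := by rw [← Real.rpow_add (by linarith)]; norm_num
      _ ≤ ((X : ℝ) ^ (999 / 1000 : ℝ)) ^ (1 - 1 / 1000 : ℝ) := by
          rw [← Real.rpow_mul (by linarith)]
          apply Real.rpow_le_rpow_of_exponent_le (by linarith)
          norm_num
      _ ≤ _ := Real.rpow_le_rpow (by positivity) hy (by norm_num)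
  have key := h y hyx0 (Q0 * N) hD
  have hQR : (0 : ℝ) < Q0 := by exact_mod_cast Nat.pos_of_ne_zero hQ0
  calc ∑ n ∈ Icc 1 N, (n.divisors.card : ℝ) ^ K / n * ee y (Q0 * n) ≤
      ∑ n ∈ Icc 1 N, (Q0 : ℝ) * (((Q0 * n).divisors.card : ℝ) ^ K / ((Q0 * n : ℕ) : ℝ) *
        ee y (Q0 * n)) := by
        apply sum_le_sum
        intro n hn
        rw [mem_Icc] at hn
        have hn0 : (0 : ℝ) < n := by exact_mod_cast hn.1
        rw [← mul_assoc]
        apply mul_le_mul_of_nonneg_right _ (ee_nonneg _ _)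
        have h4 : (n.divisors.card : ℝ) ≤ ((Q0 * n).divisors.card : ℝ) :=
          tau_le_of_dvd ⟨Q0, by ring⟩ (Nat.mul_ne_zero hQ0 (by omega))
        calc (n.divisors.card : ℝ) ^ K / n ≤ ((Q0 * n).divisors.card : ℝ) ^ K / n := by gcongr
          _ = _ := by push_cast; field_simp
    _ = Q0 * ∑ Q ∈ (Icc 1 N).image (fun n => Q0 * n),
          ((Q.divisors.card : ℝ) ^ K / Q * ee y Q) := by
        rw [← mul_sum, sum_image]
        intro a _ b _ hab
        exact Nat.eq_of_mul_eq_mul_left (Nat.pos_of_ne_zero hQ0) hab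
    _ ≤ Q0 * ∑ Q ∈ Icc 1 (Q0 * N), ((Q.divisors.card : ℝ) ^ K / Q * ee y Q) := by
        apply mul_le_mul_of_nonneg_left _ (by positivity)
        apply sum_le_sum_of_subset_of_nonneg
        · intro Q hQ
          rw [mem_image] at hQ
          obtain ⟨n, hn, rfl⟩ := hQ
          rw [mem_Icc] at hn ⊢
          exact ⟨Nat.mul_pos (Nat.pos_of_ne_zero hQ0) hn.1, Nat.mul_le_mul_left _ hn.2⟩
        · intro Q _ _
          exact mul_nonneg (by positivity) (ee_nonneg _ _)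
    _ ≤ Q0 * (y / Real.log y ^ (U' + 1)) := mul_le_mul_of_nonneg_left key (by positivity)
    _ ≤ Q0 * (y / (Real.log X / 2) ^ (U' + 1)) := by gcongr
    _ = (Q0 * 2 ^ (U' + 1)) * (y / Real.log X ^ (U' + 1)) := by
        rw [div_pow]; field_simp
    _ ≤ Real.log X * (y / Real.log X ^ (U' + 1)) := mul_le_mul_of_nonneg_right h3 (by positivity)
    _ = y / Real.log X ^ U' := by rw [pow_succ]; field_simp

theorem y_ge : ∃ X0 : ℕ, ∀ X : ℕ, X0 ≤ X → ∀ s : ℕ, 1 ≤ s →
    (s : ℝ) ≤ 8 * (X : ℝ) ^ (1 / 2000 : ℝ) →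
    (X : ℝ) ^ (999 / 1000 : ℝ) ≤ ((X / s : ℕ) : ℝ) := by
  have e1 : ∀ᶠ X : ℕ in atTop, (16 : ℝ) ≤ (X : ℝ) ^ (1 / 2000 : ℝ) :=
    ((tendsto_rpow_atTop (by norm_num)).comp tendsto_natCast_atTop_atTop).eventually
      (eventually_ge_atTop _)
  obtain ⟨X0, hX0⟩ := eventually_atTop.1 e1
  refine ⟨max X0 1, ?_⟩
  intro X hX s hs hs8
  have h16 := hX0 X ((le_max_left _ _).trans hX)
  have hX1 : (1 : ℝ) ≤ X := by exact_mod_cast (le_max_right _ _).trans hX
  have hs0 : (0 : ℝ) < s := by exact_mod_cast hs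
  have h1 : (X : ℝ) / s - 1 ≤ ((X / s : ℕ) : ℝ) := by
    rw [← Nat.floor_div_eq_div (K := ℝ) X s]
    exact (Nat.sub_one_lt_floor _).le
  have h2 : 2 * (X : ℝ) ^ (999 / 1000 : ℝ) ≤ (X : ℝ) / s := by
    rw [le_div_iff₀ hs0]
    calc 2 * (X : ℝ) ^ (999 / 1000 : ℝ) * s ≤
          2 * (X : ℝ) ^ (999 / 1000 : ℝ) * (8 * (X : ℝ) ^ (1 / 2000 : ℝ)) := by gcongr
      _ = 16 * ((X : ℝ) ^ (999 / 1000 : ℝ) * (X : ℝ) ^ (1 / 2000 : ℝ)) := by ring
      _ ≤ (X : ℝ) ^ (1 / 2000 : ℝ) * ((X : ℝ) ^ (999 / 1000 : ℝ) * (X : ℝ) ^ (1 / 2000 : ℝ)) := by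
          gcongr
      _ = X := by
          rw [← Real.rpow_add (by linarith), ← Real.rpow_add (by linarith)]
          norm_num
  have h3 : 1 ≤ (X : ℝ) ^ (999 / 1000 : ℝ) := Real.one_le_rpow hX1 (by norm_num)
  linarith

theorem ERR (hEE : St_EE) : St_ERR := by
  classical
  intro Q0 C U hQ0
  set K := 2 ^ (C + 4) with hK
  set U' := U + (2 * K + 3) with hU'
  obtain ⟨Xa, ha⟩ := EE' hEE (2 * C + 2) U' Q0 hQ0
  obtain ⟨Xb, hb⟩ := EE' hEE (C + 3) U' Q0 hQ0
  obtain ⟨Xc, hc⟩ := y_ge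
  have hev : ∀ᶠ x : ℕ in atTop, (2 : ℝ) ≤ Real.log x :=
    (Real.tendsto_log_atTop.comp tendsto_natCast_atTop_atTop).eventually (eventually_ge_atTop 2)
  obtain ⟨Xd, hd⟩ := eventually_atTop.1 hev
  refine ⟨max (max Xa Xb) (max Xc (max Xd 3)), ?_⟩
  intro X hX
  have hXa : Xa ≤ X := (le_max_left _ _).trans ((le_max_left _ _).trans hX)
  have hXb : Xb ≤ X := (le_max_right _ _).trans ((le_max_left _ _).trans hX)
  have hXc : Xc ≤ X := (le_max_left _ _).trans ((le_max_right _ _).trans hX)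
  have hXd : Xd ≤ X := (le_max_left _ _).trans
    ((le_max_right _ _).trans ((le_max_right _ _).trans hX))
  have hX3 : 3 ≤ X := (le_max_right _ _).trans
    ((le_max_right _ _).trans ((le_max_right _ _).trans hX))
  have hX3R : (3 : ℝ) ≤ X := by exact_mod_cast hX3
  set M := ⌊(X : ℝ) ^ (1 / 2000 : ℝ)⌋₊ with hM
  set R := ⌊(X : ℝ) ^ (993 / 1000 : ℝ)⌋₊ with hR
  set L := Real.log X with hL
  have hL2 : 2 ≤ L := hd X hXd
  have hL0 : 0 < L := by linarith
  have hMle : (M : ℝ) ≤ (X : ℝ) ^ (1 / 2000 : ℝ) := Nat.floor_le (by positivity)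
  have hRle : (R : ℝ) ≤ (X : ℝ) ^ (993 / 1000 : ℝ) := Nat.floor_le (by positivity)
  have hMR : ((M * R : ℕ) : ℝ) ≤ (X : ℝ) ^ (994 / 1000 : ℝ) := by
    push_cast
    calc (M : ℝ) * R ≤ (X : ℝ) ^ (1 / 2000 : ℝ) * (X : ℝ) ^ (993 / 1000 : ℝ) :=
          mul_le_mul hMle hRle (by positivity) (by positivity)
      _ = (X : ℝ) ^ (1 / 2000 + 993 / 1000 : ℝ) := (Real.rpow_add (by linarith) _ _).symm
      _ ≤ _ := Real.rpow_le_rpow_of_exponent_le (by linarith) (by norm_num)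
  have hpowX : ∀ e : ℝ, e ≤ 1 → (X : ℝ) ^ e ≤ X := by
    intro e he
    calc (X : ℝ) ^ e ≤ (X : ℝ) ^ (1 : ℝ) := Real.rpow_le_rpow_of_exponent_le (by linarith) he
      _ = X := Real.rpow_one _
  have hMRX : M * R ≤ X := by
    have := hMR.trans (hpowX _ (by norm_num))
    exact_mod_cast this
  have hMX : M ≤ X := by
    have := hMle.trans (hpowX _ (by norm_num))
    exact_mod_cast this
  have hlog : ∀ n : ℕ, n ≤ X → 1 + Real.log n ≤ 2 * L := by
    intro n hn
    rcases Nat.eq_zero_or_pos n with h0 | h0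
    · subst h0; simp; linarith
    · have := Real.log_le_log (by exact_mod_cast h0) (by exact_mod_cast hn : (n : ℝ) ≤ X)
      linarith
  have hlog0 : ∀ n : ℕ, 0 ≤ 1 + Real.log n := fun n => by
    have := Real.log_natCast_nonneg n
    linarith
  set E0 : ℕ → ℕ → ℝ := fun s Q => ee (X / s) Q + ee (X / (2 * s)) Q with hE0
  set E1 : ℕ → ℕ → ℝ := fun s Q => ee (X / (4 * s)) Q + ee (X / (8 * s)) Q with hE1
  have hE0n : ∀ s Q, 0 ≤ E0 s Q := fun s Q => add_nonneg (ee_nonneg _ _) (ee_nonneg _ _)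
  have hE1n : ∀ s Q, 0 ≤ E1 s Q := fun s Q => add_nonneg (ee_nonneg _ _) (ee_nonneg _ _)
  have hy : ∀ s, 1 ≤ s → s ≤ M → ∀ k, 1 ≤ k → k ≤ 8 →
      (X : ℝ) ^ (999 / 1000 : ℝ) ≤ ((X / (k * s) : ℕ) : ℝ) ∧
      ((X / (k * s) : ℕ) : ℝ) / L ^ U' ≤ (X / s) / L ^ U' := by
    intro s hs hsM k hk hk8
    constructor
    · apply hc X hXc (k * s) (Nat.mul_pos hk hs)
      push_cast
      exact mul_le_mul (by exact_mod_cast hk8) ((Nat.cast_le.2 hsM).trans hMle)
        (by positivity) (by norm_num)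
    · apply div_le_div_of_nonneg_right _ (by positivity)
      calc ((X / (k * s) : ℕ) : ℝ) ≤ (X : ℝ) / ((k * s : ℕ) : ℝ) := Nat.cast_div_le
        _ ≤ X / s := by
          apply div_le_div_of_nonneg_left
          · positivity
          · exact_mod_cast hs
          · exact_mod_cast Nat.le_mul_of_pos_left s hk
  have hS0 : ∀ s, 1 ≤ s → s ≤ M → ∑ n ∈ Icc 1 (M * R),
      (n.divisors.card : ℝ) ^ (2 * C + 2) / n * E0 s (Q0 * n) ≤ 2 * ((X / s) / L ^ U') := by
    intro s hs hsM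
    have h1 := hy s hs hsM 1 le_rfl (by norm_num)
    have h2 := hy s hs hsM 2 (by norm_num) (by norm_num)
    rw [one_mul] at h1
    have h3 := (ha X hXa _ h1.1 (M * R) hMR).trans h1.2
    have h4 := (ha X hXa _ h2.1 (M * R) hMR).trans h2.2
    calc _ = ∑ n ∈ Icc 1 (M * R), (n.divisors.card : ℝ) ^ (2 * C + 2) / n *
            ee (X / s) (Q0 * n) + ∑ n ∈ Icc 1 (M * R),
            (n.divisors.card : ℝ) ^ (2 * C + 2) / n * ee (X / (2 * s)) (Q0 * n) := by
          rw [← sum_add_distrib]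
          apply sum_congr rfl
          intro n _
          rw [hE0]
          ring
      _ ≤ _ := by linarith
  have hS1 : ∀ s, 1 ≤ s → s ≤ M → ∑ n ∈ Icc 1 (M * R),
      (n.divisors.card : ℝ) ^ (C + 3) / n * E1 s (Q0 * n) ≤ 2 * ((X / s) / L ^ U') := by
    intro s hs hsM
    have h1 := hy s hs hsM 4 (by norm_num) (by norm_num)
    have h2 := hy s hs hsM 8 (by norm_num) (by norm_num)
    have h3 := (hb X hXb _ h1.1 (M * R) hMR).trans h1.2
    have h4 := (hb X hXb _ h2.1 (M * R) hMR).trans h2.2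
    calc _ = ∑ n ∈ Icc 1 (M * R), (n.divisors.card : ℝ) ^ (C + 3) / n *
            ee (X / (4 * s)) (Q0 * n) + ∑ n ∈ Icc 1 (M * R),
            (n.divisors.card : ℝ) ^ (C + 3) / n * ee (X / (8 * s)) (Q0 * n) := by
          rw [← sum_add_distrib]
          apply sum_congr rfl
          intro n _
          rw [hE1]
          ring
      _ ≤ _ := by linarith
  -- the bound of one term
  have hterm : ∀ s0 ∈ Icc 1 M, ∀ s1 ∈ Icc 1 M, ∀ r ∈ Icc 1 R,
      ∑ s2 ∈ r.divisors, ((s0 * s1 * r).divisors.card : ℝ) ^ C *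
        er X Q0 ![s0, s1, s2] (r / s2) ≤
      2 * X * ((s0.divisors.card : ℝ) ^ C * ((r.divisors.card : ℝ) ^ (C + 1) / r *
        ((s1.divisors.card : ℝ) ^ C / s1 * ∑ t ∈ s1.divisors, E0 s0 (Q0 * r * t)))) +
      X * ((s1.divisors.card : ℝ) ^ C * (((s0 * r).divisors.card : ℝ) ^ (C + 2) /
        ((s0 * r : ℕ) : ℝ) * ∑ t ∈ (s0 * r).divisors, E1 s1 (Q0 * t))) := by
    intro s0 hs0 s1 hs1 r hr
    rw [mem_Icc] at hs0 hs1 hr
    have hs0R : (0 : ℝ) < s0 := by exact_mod_cast hs0.1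
    have hs1R : (0 : ℝ) < s1 := by exact_mod_cast hs1.1
    have hrR : (0 : ℝ) < r := by exact_mod_cast hr.1
    set S0 := ∑ t ∈ s1.divisors, E0 s0 (Q0 * r * t) with hS0d
    set S1 := ∑ t ∈ (s0 * r).divisors, E1 s1 (Q0 * t) with hS1d
    have hS00 : 0 ≤ S0 := sum_nonneg (fun _ _ => hE0n _ _)
    have hS10 : 0 ≤ S1 := sum_nonneg (fun _ _ => hE1n _ _)
    have her : ∀ s2 ∈ r.divisors, er X Q0 ![s0, s1, s2] (r / s2) ≤
        2 * X / (s1 * r) * S0 + X / s0 * ((r.divisors.card : ℝ) / r) * S1 := by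
      intro s2 hs2
      have hs2r := Nat.dvd_of_mem_divisors hs2
      have hmul : s2 * (r / s2) = r := Nat.mul_div_cancel' hs2r
      have hcast : (s1 : ℝ) * s2 * ((r / s2 : ℕ) : ℝ) = s1 * r := by
        rw [mul_assoc]
        congr 1
        exact_mod_cast hmul
      have e1 : er X Q0 ![s0, s1, s2] (r / s2) =
          ((X : ℝ) / (s1 * s2 * ((r / s2 : ℕ) : ℝ)) + 1) *
            ∑ t ∈ s1.divisors, E0 s0 (Q0 * (s2 * (r / s2)) * t) +
          ((X : ℝ) / s0) / ((s2 * (r / s2)).totient : ℝ) *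
            ∑ t ∈ (s0 * s2).divisors, E1 s1 (Q0 * t) := rfl
      rw [e1, hmul, hcast]
      apply add_le_add
      · apply mul_le_mul_of_nonneg_right _ hS00
        have h1 : (s1 : ℝ) * r ≤ X := by
          have : s1 * r ≤ X := (Nat.mul_le_mul hs1.2 hr.2).trans hMRX
          exact_mod_cast this
        have h2 : 1 ≤ (X : ℝ) / (s1 * r) := by
          rw [one_le_div (by positivity)]
          exact h1
        have h3 : 2 * (X : ℝ) / (s1 * r) = X / (s1 * r) + X / (s1 * r) := by ring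
        rw [h3]
        linarith
      · apply mul_le_mul
        · rw [div_eq_mul_inv ((X : ℝ) / s0)]
          apply mul_le_mul_of_nonneg_left _ (by positivity)
          have hφ : (0 : ℝ) < r.totient := by exact_mod_cast Nat.totient_pos.2 hr.1
          rw [inv_eq_one_div, div_le_div_iff₀ hφ hrR, one_mul, mul_comm]
          exact_mod_cast self_le_totient r
        · apply sum_le_sum_of_subset_of_nonneg
          · apply Nat.divisors_subset_of_dvd
            · have := hs0.1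
              have := hr.1
              positivity
            · exact Nat.mul_dvd_mul_left s0 hs2r
          · intro _ _ _
            exact hE1n _ _
        · exact sum_nonneg (fun _ _ => hE1n _ _)
        · positivity
    have hτ1 : ((s0 * s1 * r).divisors.card : ℝ) ^ C ≤ (s0.divisors.card : ℝ) ^ C *
        (s1.divisors.card : ℝ) ^ C * (r.divisors.card : ℝ) ^ C := by
      rw [← mul_pow, ← mul_pow]
      apply pow_le_pow_left₀ (by positivity)
      refine (tau_mul_le _ _).trans ?_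
      exact mul_le_mul_of_nonneg_right (tau_mul_le _ _) (by positivity)
    have hτ2 : ((s0 * s1 * r).divisors.card : ℝ) ^ C ≤ (s1.divisors.card : ℝ) ^ C *
        ((s0 * r).divisors.card : ℝ) ^ C := by
      rw [← mul_pow, show s0 * s1 * r = s1 * (s0 * r) by ring]
      exact pow_le_pow_left₀ (by positivity) (tau_mul_le _ _) C
    have hτ3 : (r.divisors.card : ℝ) ≤ ((s0 * r).divisors.card : ℝ) := by
      apply tau_le_of_dvd ⟨s0, by ring⟩
      have := hs0.1
      have := hr.1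
      positivity
    calc ∑ s2 ∈ r.divisors, ((s0 * s1 * r).divisors.card : ℝ) ^ C *
          er X Q0 ![s0, s1, s2] (r / s2) ≤
        ∑ s2 ∈ r.divisors, ((s0 * s1 * r).divisors.card : ℝ) ^ C *
          (2 * X / (s1 * r) * S0 + X / s0 * ((r.divisors.card : ℝ) / r) * S1) :=
          sum_le_sum (fun s2 hs2 => mul_le_mul_of_nonneg_left (her s2 hs2) (by positivity))
      _ = ((s0 * s1 * r).divisors.card : ℝ) ^ C * ((r.divisors.card : ℝ) *
            (2 * X / (s1 * r) * S0)) +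
          ((s0 * s1 * r).divisors.card : ℝ) ^ C * ((r.divisors.card : ℝ) ^ 2 *
            (X / (s0 * r) * S1)) := by
          rw [sum_const, nsmul_eq_mul]
          ring
      _ ≤ ((s0.divisors.card : ℝ) ^ C * (s1.divisors.card : ℝ) ^ C *
            (r.divisors.card : ℝ) ^ C) * ((r.divisors.card : ℝ) *
            (2 * X / (s1 * r) * S0)) +
          ((s1.divisors.card : ℝ) ^ C * ((s0 * r).divisors.card : ℝ) ^ C) *
            (((s0 * r).divisors.card : ℝ) ^ 2 * (X / (s0 * r) * S1)) := by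
          apply add_le_add
          · exact mul_le_mul_of_nonneg_right hτ1 (by positivity)
          · apply mul_le_mul hτ2 _ (by positivity) (by positivity)
            apply mul_le_mul_of_nonneg_right _ (by positivity)
            exact pow_le_pow_left₀ (by positivity) hτ3 2
      _ = _ := by
          rw [Nat.cast_mul]
          ring
  -- first part
  have hT1 : ∀ s0 ∈ Icc 1 M, ∑ s1 ∈ Icc 1 M, ∑ r ∈ Icc 1 R,
      ((r.divisors.card : ℝ) ^ (C + 1) / r *
        ((s1.divisors.card : ℝ) ^ C / s1 * ∑ t ∈ s1.divisors, E0 s0 (Q0 * r * t))) ≤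
      (2 * L) ^ (2 ^ C) * (2 * ((X / s0) / L ^ U')) := by
    intro s0 hs0
    rw [mem_Icc] at hs0
    rw [sum_comm]
    calc _ ≤ ∑ r ∈ Icc 1 R, (r.divisors.card : ℝ) ^ (C + 1) / r * ((2 * L) ^ (2 ^ C) *
            ∑ t ∈ Icc 1 M, (t.divisors.card : ℝ) ^ C / t * E0 s0 (Q0 * r * t)) := by
          apply sum_le_sum
          intro r hr
          rw [← mul_sum]
          apply mul_le_mul_of_nonneg_left _ (by positivity)
          refine (div_sum C M (fun t => E0 s0 (Q0 * r * t)) (fun t => hE0n _ _)).trans ?_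
          apply mul_le_mul_of_nonneg_right
          · exact pow_le_pow_left₀ (hlog0 M) (hlog M hMX) _
          · exact sum_nonneg (fun t _ => mul_nonneg (by positivity) (hE0n _ _))
      _ = (2 * L) ^ (2 ^ C) * ∑ t ∈ Icc 1 M, ∑ r ∈ Icc 1 R,
            ((r.divisors.card : ℝ) ^ (C + 1) / r *
              ((t.divisors.card : ℝ) ^ C / t * E0 s0 (Q0 * r * t))) := by
          rw [sum_comm, mul_sum]
          apply sum_congr rfl
          intro r _
          rw [mul_sum, mul_sum, mul_sum]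
          apply sum_congr rfl
          intro t _
          ring
      _ ≤ (2 * L) ^ (2 ^ C) * ∑ t ∈ Icc 1 M, ∑ r ∈ Icc 1 R,
            (((t * r).divisors.card : ℝ) ^ (2 * C + 1) / ((t * r : ℕ) : ℝ) *
              E0 s0 (Q0 * (t * r))) := by
          apply mul_le_mul_of_nonneg_left _ (by positivity)
          apply sum_le_sum
          intro t ht
          apply sum_le_sum
          intro r hr
          rw [mem_Icc] at ht hr
          rw [← mul_assoc, show Q0 * r * t = Q0 * (t * r) by ring]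
          apply mul_le_mul_of_nonneg_right _ (hE0n _ _)
          have htr : t * r ≠ 0 := by
            have := ht.1
            have := hr.1
            positivity
          have h1 : (r.divisors.card : ℝ) ≤ ((t * r).divisors.card : ℝ) :=
            tau_le_of_dvd ⟨t, by ring⟩ htr
          have h2 : (t.divisors.card : ℝ) ≤ ((t * r).divisors.card : ℝ) :=
            tau_le_of_dvd ⟨r, rfl⟩ htr
          rw [div_mul_div_comm, Nat.cast_mul, mul_comm (r : ℝ) t]
          apply div_le_div_of_nonneg_right _ (by positivity)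
          calc (r.divisors.card : ℝ) ^ (C + 1) * (t.divisors.card : ℝ) ^ C ≤
              ((t * r).divisors.card : ℝ) ^ (C + 1) * ((t * r).divisors.card : ℝ) ^ C := by
                gcongr
            _ = _ := by rw [← pow_add]; congr 1; ring
      _ ≤ (2 * L) ^ (2 ^ C) * ∑ n ∈ Icc 1 (M * R), (n.divisors.card : ℝ) *
            ((n.divisors.card : ℝ) ^ (2 * C + 1) / n * E0 s0 (Q0 * n)) :=
          mul_le_mul_of_nonneg_left (two_one M R
            (fun n => (n.divisors.card : ℝ) ^ (2 * C + 1) / n * E0 s0 (Q0 * n))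
            (fun n => mul_nonneg (by positivity) (hE0n _ _))) (by positivity)
      _ = (2 * L) ^ (2 ^ C) * ∑ n ∈ Icc 1 (M * R),
            ((n.divisors.card : ℝ) ^ (2 * C + 2) / n * E0 s0 (Q0 * n)) := by
          congr 1
          apply sum_congr rfl
          intro n _
          ring
      _ ≤ _ := mul_le_mul_of_nonneg_left (hS0 s0 hs0.1 hs0.2) (by positivity)
  -- second part
  have hT2 : ∀ s1 ∈ Icc 1 M, ∑ s0 ∈ Icc 1 M, ∑ r ∈ Icc 1 R,
      (((s0 * r).divisors.card : ℝ) ^ (C + 2) / ((s0 * r : ℕ) : ℝ) *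
        ∑ t ∈ (s0 * r).divisors, E1 s1 (Q0 * t)) ≤
      (2 * L) ^ (2 ^ (C + 3)) * (2 * ((X / s1) / L ^ U')) := by
    intro s1 hs1
    rw [mem_Icc] at hs1
    calc _ ≤ ∑ n ∈ Icc 1 (M * R), (n.divisors.card : ℝ) *
            ((n.divisors.card : ℝ) ^ (C + 2) / n * ∑ t ∈ n.divisors, E1 s1 (Q0 * t)) :=
          two_one M R (fun n => (n.divisors.card : ℝ) ^ (C + 2) / n *
            ∑ t ∈ n.divisors, E1 s1 (Q0 * t))
            (fun n => mul_nonneg (by positivity) (sum_nonneg (fun _ _ => hE1n _ _)))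
      _ = ∑ n ∈ Icc 1 (M * R), (n.divisors.card : ℝ) ^ (C + 3) / n *
            ∑ t ∈ n.divisors, E1 s1 (Q0 * t) := by
          apply sum_congr rfl
          intro n _
          ring
      _ ≤ (1 + Real.log ((M * R : ℕ) : ℝ)) ^ (2 ^ (C + 3)) * ∑ t ∈ Icc 1 (M * R),
            (t.divisors.card : ℝ) ^ (C + 3) / t * E1 s1 (Q0 * t) :=
          div_sum (C + 3) (M * R) (fun t => E1 s1 (Q0 * t)) (fun t => hE1n _ _)
      _ ≤ _ := by
          apply mul_le_mul
          · exact pow_le_pow_left₀ (hlog0 _) (hlog _ hMRX) _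
          · exact hS1 s1 hs1.1 hs1.2
          · exact sum_nonneg (fun t _ => mul_nonneg (by positivity) (hE1n _ _))
          · positivity
  have hdiv : ∀ W : ℝ, 0 ≤ W → ∑ s ∈ Icc 1 M, (s.divisors.card : ℝ) ^ C *
      (W * (2 * ((X / s) / L ^ U'))) ≤ W * (2 * X / L ^ U') * (2 * L) ^ (2 ^ C) := by
    intro W hW
    calc ∑ s ∈ Icc 1 M, (s.divisors.card : ℝ) ^ C * (W * (2 * ((X / s) / L ^ U'))) =
        W * (2 * X / L ^ U') * ∑ s ∈ Icc 1 M, (s.divisors.card : ℝ) ^ C / s := by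
          rw [mul_sum]
          apply sum_congr rfl
          intro s _
          ring
      _ ≤ W * (2 * X / L ^ U') * (1 + Real.log M) ^ (2 ^ C) :=
          mul_le_mul_of_nonneg_left (W37.RK.sum_card_pow_div C M) (by positivity)
      _ ≤ _ := by
          apply mul_le_mul_of_nonneg_left _ (by positivity)
          exact pow_le_pow_left₀ (hlog0 M) (hlog M hMX) _
  calc ∑ s0 ∈ Icc 1 M, ∑ s1 ∈ Icc 1 M, ∑ r ∈ Icc 1 R, ∑ s2 ∈ r.divisors,
        ((s0 * s1 * r).divisors.card : ℝ) ^ C * er X Q0 ![s0, s1, s2] (r / s2) ≤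
      ∑ s0 ∈ Icc 1 M, ∑ s1 ∈ Icc 1 M, ∑ r ∈ Icc 1 R,
        (2 * X * ((s0.divisors.card : ℝ) ^ C * ((r.divisors.card : ℝ) ^ (C + 1) / r *
        ((s1.divisors.card : ℝ) ^ C / s1 * ∑ t ∈ s1.divisors, E0 s0 (Q0 * r * t)))) +
      X * ((s1.divisors.card : ℝ) ^ C * (((s0 * r).divisors.card : ℝ) ^ (C + 2) /
        ((s0 * r : ℕ) : ℝ) * ∑ t ∈ (s0 * r).divisors, E1 s1 (Q0 * t)))) :=
        sum_le_sum (fun s0 h0 => sum_le_sum (fun s1 h1 => sum_le_sum
          (fun r hr => hterm s0 h0 s1 h1 r hr)))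
    _ = 2 * X * ∑ s0 ∈ Icc 1 M, (s0.divisors.card : ℝ) ^ C * ∑ s1 ∈ Icc 1 M, ∑ r ∈ Icc 1 R,
          ((r.divisors.card : ℝ) ^ (C + 1) / r *
          ((s1.divisors.card : ℝ) ^ C / s1 * ∑ t ∈ s1.divisors, E0 s0 (Q0 * r * t))) +
        X * ∑ s1 ∈ Icc 1 M, (s1.divisors.card : ℝ) ^ C * ∑ s0 ∈ Icc 1 M, ∑ r ∈ Icc 1 R,
          (((s0 * r).divisors.card : ℝ) ^ (C + 2) /
          ((s0 * r : ℕ) : ℝ) * ∑ t ∈ (s0 * r).divisors, E1 s1 (Q0 * t)) := by
        simp_rw [sum_add_distrib, ← mul_sum]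
        congr 2
        rw [sum_comm]
        simp_rw [← mul_sum]
    _ ≤ 2 * X * ∑ s0 ∈ Icc 1 M, (s0.divisors.card : ℝ) ^ C *
          ((2 * L) ^ (2 ^ C) * (2 * ((X / s0) / L ^ U'))) +
        X * ∑ s1 ∈ Icc 1 M, (s1.divisors.card : ℝ) ^ C *
          ((2 * L) ^ (2 ^ (C + 3)) * (2 * ((X / s1) / L ^ U'))) := by
        apply add_le_add
        · apply mul_le_mul_of_nonneg_left _ (by positivity)
          exact sum_le_sum (fun s0 h0 => mul_le_mul_of_nonneg_left (hT1 s0 h0) (by positivity))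
        · apply mul_le_mul_of_nonneg_left _ (by positivity)
          exact sum_le_sum (fun s1 h1 => mul_le_mul_of_nonneg_left (hT2 s1 h1) (by positivity))
    _ ≤ 2 * X * ((2 * L) ^ (2 ^ C) * (2 * X / L ^ U') * (2 * L) ^ (2 ^ C)) +
        X * ((2 * L) ^ (2 ^ (C + 3)) * (2 * X / L ^ U') * (2 * L) ^ (2 ^ C)) := by
        apply add_le_add
        · exact mul_le_mul_of_nonneg_left (hdiv _ (by positivity)) (by positivity)
        · exact mul_le_mul_of_nonneg_left (hdiv _ (by positivity)) (by positivity)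
    _ = (4 * (2 * L) ^ (2 ^ C + 2 ^ C) + 2 * (2 * L) ^ (2 ^ (C + 3) + 2 ^ C)) *
          ((X : ℝ) ^ 2 / L ^ U') := by
        rw [pow_add, pow_add _ (2 ^ (C + 3)) (2 ^ C)]
        ring
    _ ≤ (4 * (2 * L) ^ K + 2 * (2 * L) ^ K) * ((X : ℝ) ^ 2 / L ^ U') := by
        apply mul_le_mul_of_nonneg_right _ (by positivity)
        have hp : 0 < 2 ^ C := by positivity
        have h3 : 2 ^ (C + 3) = 8 * 2 ^ C := by rw [pow_add]; ring
        have h4 : 2 ^ (C + 4) = 16 * 2 ^ C := by rw [pow_add]; ring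
        have h1 : (2 * L) ^ (2 ^ C + 2 ^ C) ≤ (2 * L) ^ K :=
          pow_le_pow_right₀ (by linarith) (by rw [hK]; omega)
        have h2 : (2 * L) ^ (2 ^ (C + 3) + 2 ^ C) ≤ (2 * L) ^ K :=
          pow_le_pow_right₀ (by linarith) (by rw [hK]; omega)
        linarith
    _ ≤ L ^ (2 * K + 3) * ((X : ℝ) ^ 2 / L ^ U') := by
        apply mul_le_mul_of_nonneg_right _ (by positivity)
        have h1 : (2 : ℝ) ^ K ≤ L ^ K := pow_le_pow_left₀ (by norm_num) hL2 K
        have h2 : (8 : ℝ) ≤ L ^ 3 := by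
          calc (8 : ℝ) = 2 ^ 3 := by norm_num
            _ ≤ L ^ 3 := pow_le_pow_left₀ (by norm_num) hL2 3
        calc 4 * (2 * L) ^ K + 2 * (2 * L) ^ K = 6 * (2 ^ K * L ^ K) := by rw [mul_pow]; ring
          _ ≤ L ^ 3 * (L ^ K * L ^ K) := by
              apply mul_le_mul (by linarith) _ (by positivity) (by positivity)
              exact mul_le_mul_of_nonneg_right h1 (by positivity)
          _ = L ^ (2 * K + 3) := by ring
    _ = (X : ℝ) ^ 2 / L ^ U := by
        rw [hU', pow_add L U]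
        field_simp

end Pool.Agent.Y515.RP
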